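import Mathlib

/-!
# The space of additive maps from a normal subgroup to the complex numbers
-/

set_option autoImplicit false

namespace Pool.Agent.Y552.CT

universe u v

/-- the action of `G` on `Hom(A, ℂ)`: `(g f)(a) = f (g⁻¹ a g)` -/
noncomputable def ac {G : Type u} [Group G] (A : Subgroup G) [A.Normal] :
    G →* Module.End ℂ (Additive A →+ ℂ) where
  toFun g :=
    { toFun := fun f => f.comp (MonoidHom.toAdditive (MulAut.conjNormal g⁻¹ : A ≃* A).toMonoidHom)
      map_add' := fun f₁ f₂ => by ext a; rfl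
      map_smul' := fun c f => by ext a; rfl }
  map_one' := by
    ext f a
    simp
  map_mul' g h := by
    ext f a
    simp

lemma ac_apply {G : Type u} [Group G] (A : Subgroup G) [A.Normal] (g : G)
    (f : Additive A →+ ℂ) (a : A) :
    ac A g f (Additive.ofMul a) = f (Additive.ofMul (MulAut.conjNormal g⁻¹ a)) := rfl

/-- EIG -/
def S_EIG : Prop :=
  ∀ (G : Type u) [Group G] (V : Type v) [AddCommGroup V] [Module ℂ V] [FiniteDimensional ℂ V]
    [Nontrivial V] (ρ : G →* Module.End ℂ V),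
    (∀ a ∈ commutator G, ∀ b ∈ commutator G, ρ a * ρ b = ρ b * ρ a) →
    ∃ H : Subgroup G, H.index ≠ 0 ∧ H.index ≤ Module.finrank ℂ V ∧ ∃ v : V, v ≠ 0 ∧
      ∀ g ∈ H, ∃ c : ℂ, ρ g v = c • v

/-- FIX -/
def S_FIX : Prop :=
  ∀ (N : Type u) [Group N] [Group.IsNilpotent N] (V : Type v) [AddCommGroup V] [Module ℂ V]
    [FiniteDimensional ℂ V] (ρ : N →* Module.End ℂ V),
    Submodule.span ℂ {w : V | ∃ (n : N) (v : V), w = ρ n v - v} = ⊤ →
    ∀ v : V, (∀ n : N, ρ n v = v) → v = 0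

/-- DIM -/
def S_DIM : Prop :=
  ∀ (G : Type u) [Group G] (A : Subgroup G) [A.Normal], (∀ a ∈ A, ∀ b ∈ A, a * b = b * a) →
    A.FG →
    FiniteDimensional ℂ (Additive A →+ ℂ) ∧
    Module.finrank ℂ (Additive A →+ ℂ) ≤ Module.finrank ℤ (Additive (Abelianization A)) ∧
    {a : A | ∀ f : Additive A →+ ℂ, f (Additive.ofMul a) = 0}.Finite ∧
    ∀ t : G, ∃ P : Polynomial ℤ, P.Monic ∧
      P.natDegree = Module.finrank ℤ (Additive (Abelianization A)) ∧
      ∀ f : Additive A →+ ℂ, Polynomial.aeval (ac A t) P f = 0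

end Pool.Agent.Y552.CT
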