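import Mathlib
import Pool.Agent.TH53.UG6

/-!
# Growth of groups with an affine action on `ℂ`
-/

set_option autoImplicit false

namespace Pool.Agent.Y552.CT

open Subgroup Polynomial
open scoped commutatorElement Pointwise
open Pool.Agent.H785R3.GrowthA (gam)
open Pool.Agent.TH53.UG (act act_of main_track)

universe u v

variable {H : Type u} [Group H]

/-- an affine action on `ℂ`: `g x = χ g * x + β g` -/
structure Aff (H : Type u) [Group H] where
  /-- linear part -/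
  χ : H → ℂ
  /-- translation part -/
  β : H → ℂ
  one : χ 1 = 1
  mul : ∀ g h, χ (g * h) = χ g * χ h
  cocycle : ∀ g h, β (g * h) = β g + χ g * β h

namespace Aff

variable (a : Aff H)

lemma β_one : a.β 1 = 0 := by
  have h := a.cocycle 1 1
  rw [one_mul, a.one, one_mul] at h
  exact left_eq_add.1 h

lemma χ_inv_mul (g : H) : a.χ g⁻¹ * a.χ g = 1 := by
  rw [← a.mul, inv_mul_cancel, a.one]

lemma χ_ne (g : H) : a.χ g ≠ 0 := by
  intro h
  have := a.χ_inv_mul g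
  rw [h, mul_zero] at this
  exact zero_ne_one this

lemma χ_inv (g : H) : a.χ g⁻¹ = (a.χ g)⁻¹ := eq_inv_of_mul_eq_one_left (a.χ_inv_mul g)

lemma β_inv (g : H) : a.β g⁻¹ = -((a.χ g)⁻¹ * a.β g) := by
  have h := a.cocycle g⁻¹ g
  rw [inv_mul_cancel, a.β_one, a.χ_inv] at h
  exact eq_neg_of_add_eq_zero_left h.symm

lemma χ_comm (g h : H) : a.χ ⁅g, h⁆ = 1 := by
  rw [commutatorElement_def, a.mul, a.mul, a.mul, a.χ_inv, a.χ_inv]
  have h1 := a.χ_ne g
  have h2 := a.χ_ne h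
  field_simp

/-- the commutator with an element of trivial linear part -/
lemma β_comm {b : H} (hb : a.χ b = 1) (n : H) : a.β ⁅b, n⁆ = (1 - a.χ n) * a.β b := by
  rw [commutatorElement_def, a.cocycle, a.cocycle, a.cocycle, a.mul (b * n) b⁻¹, a.mul b n,
    a.β_inv, a.β_inv, a.χ_inv, hb]
  have h2 := a.χ_ne n
  field_simp
  ring

lemma β_conj {b : H} (hb : a.χ b = 1) (t : H) : a.β (t * b * t⁻¹) = a.χ t * a.β b := by
  rw [a.cocycle, a.cocycle, a.mul t b, a.β_inv, hb]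
  have h2 := a.χ_ne t
  field_simp
  ring

/-- the kernel -/
def K : Subgroup H where
  carrier := {g | a.χ g = 1 ∧ a.β g = 0}
  one_mem' := ⟨a.one, a.β_one⟩
  mul_mem' := by
    rintro g h ⟨h1, h2⟩ ⟨h3, h4⟩
    exact ⟨by rw [a.mul, h1, h3, one_mul], by rw [a.cocycle, h2, h4, mul_zero, add_zero]⟩
  inv_mem' := by
    rintro g ⟨h1, h2⟩
    exact ⟨by rw [a.χ_inv, h1, inv_one], by rw [a.β_inv, h2, mul_zero, neg_zero]⟩

instance : a.K.Normal := by
  constructor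
  rintro g ⟨h1, h2⟩ t
  refine ⟨?_, ?_⟩
  · rw [a.mul, a.mul, h1, mul_one, ← a.mul, mul_inv_cancel, a.one]
  · rw [a.β_conj h1, h2, mul_zero]

lemma χ_of_mem {g : H} (hg : QuotientGroup.mk' a.K g ∈ gam (H ⧸ a.K) 1) : a.χ g = 1 := by
  have h1 : gam (H ⧸ a.K) 1 = (⁅(⊤ : Subgroup H), (⊤ : Subgroup H)⁆ : Subgroup H).map (QuotientGroup.mk' a.K) := by
    rw [map_commutator, ← MonoidHom.range_eq_map,
      MonoidHom.range_eq_top.2 (QuotientGroup.mk'_surjective a.K)]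
    rfl
  rw [h1] at hg
  obtain ⟨x, hx, hxe⟩ := hg
  have h2 : a.χ x = 1 := by
    let F : Subgroup H :=
      { carrier := {g | a.χ g = 1}
        one_mem' := a.one
        mul_mem' := by
          intro g h (hg : a.χ g = 1) (hh : a.χ h = 1)
          show a.χ (g * h) = 1
          rw [a.mul, hg, hh, one_mul]
        inv_mem' := by
          intro g (hg : a.χ g = 1)
          show a.χ g⁻¹ = 1
          rw [a.χ_inv, hg, inv_one] }
    have hF : (⁅(⊤ : Subgroup H), (⊤ : Subgroup H)⁆ : Subgroup H) ≤ F := by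
      rw [commutator_le]
      intro g _ h _
      exact a.χ_comm g h
    exact hF hx
  have h3 : x⁻¹ * g ∈ a.K := QuotientGroup.eq.1 hxe
  have h4 := h3.1
  rw [a.mul, a.χ_inv, h2, inv_one, one_mul] at h4
  exact h4

lemma gam_comm {x y : H ⧸ a.K} (hx : x ∈ gam (H ⧸ a.K) 1) (hy : y ∈ gam (H ⧸ a.K) 1) :
    ⁅x, y⁆ = 1 := by
  obtain ⟨g, rfl⟩ := QuotientGroup.mk'_surjective a.K x
  obtain ⟨h, rfl⟩ := QuotientGroup.mk'_surjective a.K y
  have h1 := a.χ_of_mem hx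
  have h2 := a.χ_of_mem hy
  rw [← map_commutatorElement]
  refine (QuotientGroup.eq_one_iff _).2 ⟨a.χ_comm g h, ?_⟩
  rw [a.β_comm h1, h2, sub_self, zero_mul]

theorem nil : Group.IsNilpotent (gam (H ⧸ a.K) 1) := by
  rw [isNilpotent_iff_lowerCentralSeries]
  refine ⟨1, ?_⟩
  rw [eq_bot_iff, Subgroup.lowerCentralSeries_succ, Subgroup.lowerCentralSeries_zero, commutator_le]
  intro x hx y hy
  rw [mem_bot]
  exact a.gam_comm hx hy

theorem not_vn {b : H} (hb1 : a.χ b = 1) (hb : a.β b ≠ 0)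
    (hN : ∀ N : Subgroup H, N.FiniteIndex → ∃ n ∈ N, a.χ n ≠ 1) :
    ¬ Group.IsVirtuallyNilpotent (H ⧸ a.K) := by
  rintro ⟨NE, hNE, hNEf⟩
  obtain ⟨c0, hc0⟩ := (isNilpotent_iff_lowerCentralSeries NE).1 hNE
  set N' : Subgroup H := NE.comap (QuotientGroup.mk' a.K) with hN'
  have hN'f : N'.FiniteIndex := ⟨by
    rw [hN', index_comap_of_surjective _ (QuotientGroup.mk'_surjective a.K)]
    exact hNEf.index_ne_zero⟩
  obtain ⟨n, hn, hnf⟩ := hN N' hN'f
  have hc1 : 1 - a.χ n ≠ 0 := sub_ne_zero.2 (Ne.symm hnf)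
  obtain ⟨j, hj0, _, hj⟩ := exists_pow_mem_of_index_ne_zero hN'f.index_ne_zero b
  have hpow : ∀ j : ℕ, a.χ (b ^ j) = 1 ∧ a.β (b ^ j) = j * a.β b := by
    intro j
    induction j with
    | zero => exact ⟨by rw [pow_zero, a.one], by rw [pow_zero, a.β_one]; simp⟩
    | succ j ih =>
      refine ⟨by rw [pow_succ, a.mul, ih.1, hb1, one_mul], ?_⟩
      rw [pow_succ, a.cocycle, ih.1, ih.2]
      push_cast
      ring
  have key : ∀ i, ∃ x : H, x ∈ N' ∧ QuotientGroup.mk' a.K x ∈ NE.lowerCentralSeries i ∧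
      a.χ x = 1 ∧ a.β x ≠ 0 := by
    intro i
    induction i with
    | zero =>
      refine ⟨b ^ j, hj, hj, (hpow j).1, ?_⟩
      rw [(hpow j).2]
      exact mul_ne_zero (by exact_mod_cast hj0.ne') hb
    | succ i ih =>
      obtain ⟨x, hx, hxi, hx1, hxb⟩ := ih
      refine ⟨⁅x, n⁆, ?_, ?_, a.χ_comm x n, ?_⟩
      · rw [commutatorElement_def]
        exact N'.mul_mem (N'.mul_mem (N'.mul_mem hx hn) (N'.inv_mem hx)) (N'.inv_mem hn)
      · rw [map_commutatorElement]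
        exact commutator_mem_commutator hxi hn
      · rw [a.β_comm hx1]
        exact mul_ne_zero hc1 hxb
  obtain ⟨x, _, hb1, _, hxb⟩ := key c0
  rw [hc0, mem_bot] at hb1
  exact hxb ((QuotientGroup.eq_one_iff x).1 hb1).2

/-- the class of an element in the abelianization -/
noncomputable abbrev cl (g : H) (h : QuotientGroup.mk' a.K g ∈ gam (H ⧸ a.K) 1) :
    Additive (Abelianization (gam (H ⧸ a.K) 1)) :=
  Additive.ofMul (Abelianization.of ⟨QuotientGroup.mk' a.K g, h⟩)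

lemma mem_mul {g h : H} (hg : QuotientGroup.mk' a.K g ∈ gam (H ⧸ a.K) 1)
    (hh : QuotientGroup.mk' a.K h ∈ gam (H ⧸ a.K) 1) :
    QuotientGroup.mk' a.K (g * h) ∈ gam (H ⧸ a.K) 1 := by
  rw [map_mul]; exact mul_mem hg hh

lemma mem_zpow {g : H} (h : QuotientGroup.mk' a.K g ∈ gam (H ⧸ a.K) 1) (n : ℤ) :
    QuotientGroup.mk' a.K (g ^ n) ∈ gam (H ⧸ a.K) 1 := by
  rw [map_zpow]; exact zpow_mem h n

lemma mem_conj (t : H) {g : H} (h : QuotientGroup.mk' a.K g ∈ gam (H ⧸ a.K) 1) :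
    QuotientGroup.mk' a.K (t * g * t⁻¹) ∈ gam (H ⧸ a.K) 1 := by
  rw [map_mul, map_mul, map_inv]
  exact Normal.conj_mem inferInstance _ h _

lemma cl_zpow {g : H} (h : QuotientGroup.mk' a.K g ∈ gam (H ⧸ a.K) 1) (n : ℤ) :
    a.cl (g ^ n) (a.mem_zpow h n) = n • a.cl g h := by
  have h1 : (⟨QuotientGroup.mk' a.K (g ^ n), a.mem_zpow h n⟩ : gam (H ⧸ a.K) 1) =
      (⟨QuotientGroup.mk' a.K g, h⟩ : gam (H ⧸ a.K) 1) ^ n := by
    apply Subtype.ext
    rw [SubgroupClass.coe_zpow, ← map_zpow]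
  show Additive.ofMul (Abelianization.of _) = n • Additive.ofMul (Abelianization.of _)
  rw [h1, map_zpow, ofMul_zpow]

lemma act_cl (t : H) {g : H} (h : QuotientGroup.mk' a.K g ∈ gam (H ⧸ a.K) 1) :
    act (gam (H ⧸ a.K) 1) (QuotientGroup.mk' a.K t) (a.cl g h) =
      a.cl (t * g * t⁻¹) (a.mem_conj t h) := by
  rw [act_of]
  congr 2

lemma β_zpow {g : H} (hg : a.χ g = 1) (n : ℤ) : a.β (g ^ n) = n * a.β g := by
  have h1 : ∀ j : ℕ, a.χ (g ^ j) = 1 ∧ a.β (g ^ j) = j * a.β g := by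
    intro j
    induction j with
    | zero => exact ⟨by rw [pow_zero, a.one], by rw [pow_zero, a.β_one]; simp⟩
    | succ j ih =>
      refine ⟨by rw [pow_succ, a.mul, ih.1, hg, one_mul], ?_⟩
      rw [pow_succ, a.cocycle, ih.1, ih.2]
      push_cast
      ring
  obtain ⟨j, rfl | rfl⟩ := n.eq_nat_or_neg
  · rw [zpow_natCast, (h1 j).2]
    push_cast
    ring
  · rw [zpow_neg, zpow_natCast, a.β_inv, (h1 j).1, (h1 j).2]
    push_cast
    ring

lemma chain (t : H) (p : ℤ[X]) (g : H) (hg : QuotientGroup.mk' a.K g ∈ gam (H ⧸ a.K) 1) :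
    ∃ (g' : H) (hg' : QuotientGroup.mk' a.K g' ∈ gam (H ⧸ a.K) 1),
      aeval (act (gam (H ⧸ a.K) 1) (QuotientGroup.mk' a.K t)) p (a.cl g hg) = a.cl g' hg' ∧
      a.β g' = aeval (a.χ t) p * a.β g := by
  induction p using Polynomial.induction_on with
  | C c =>
    refine ⟨g ^ c, a.mem_zpow hg c, ?_, ?_⟩
    · rw [aeval_C, Module.algebraMap_end_apply, cl_zpow]
    · rw [a.β_zpow (a.χ_of_mem hg), aeval_C]
      simp
  | add p q hp hq =>
    obtain ⟨a₁, g₁, e₁, f₁⟩ := hp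
    obtain ⟨a₂, g₂, e₂, f₂⟩ := hq
    refine ⟨a₁ * a₂, a.mem_mul g₁ g₂, ?_, ?_⟩
    · rw [map_add, LinearMap.add_apply, e₁, e₂]
      rfl
    · rw [a.cocycle, a.χ_of_mem g₁, f₁, f₂, map_add]
      ring
  | monomial n c hp =>
    obtain ⟨a₁, g₁, e₁, f₁⟩ := hp
    have e : (C c * X ^ (n + 1) : ℤ[X]) = X * (C c * X ^ n) := by ring
    refine ⟨t * a₁ * t⁻¹, a.mem_conj t g₁, ?_, ?_⟩
    · rw [e, map_mul, Module.End.mul_apply, e₁, aeval_X, act_cl]
    · rw [a.β_conj (a.χ_of_mem g₁), f₁, e, map_mul (aeval (a.χ t)) X, aeval_X]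
      ring

/-- the characters are integral if the commutator subgroup is finitely generated -/
theorem integral (hf : Module.Finite ℤ (Additive (Abelianization (gam (H ⧸ a.K) 1)))) {b : H}
    (hb1 : a.χ b = 1) (hb : a.β b ≠ 0)
    (hN : ∀ N : Subgroup H, N.FiniteIndex → ∃ n ∈ N, a.χ n ≠ 1) (t : H) :
    IsIntegral ℤ (a.χ t) := by
  obtain ⟨n, _, hn⟩ := hN ⊤ inferInstance
  have hg : QuotientGroup.mk' a.K ⁅b, n⁆ ∈ gam (H ⧸ a.K) 1 := by
    rw [map_commutatorElement]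
    exact commutator_mem_commutator (mem_top _) (mem_top _)
  have hgb : a.β ⁅b, n⁆ ≠ 0 := by
    rw [a.β_comm hb1]
    exact mul_ne_zero (sub_ne_zero.2 (Ne.symm hn)) hb
  obtain ⟨P, hPm, hP⟩ : ∃ P : ℤ[X], P.Monic ∧
      aeval (act (gam (H ⧸ a.K) 1) (QuotientGroup.mk' a.K t)) P = 0 :=
    LinearMap.exists_monic_and_aeval_eq_zero ℤ _
  obtain ⟨g', hg', e1, e2⟩ := a.chain t P ⁅b, n⁆ hg
  rw [hP, LinearMap.zero_apply] at e1
  have h1 : (⟨QuotientGroup.mk' a.K g', hg'⟩ : gam (H ⧸ a.K) 1) ∈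
      commutator (gam (H ⧸ a.K) 1) := by
    have h2 : Abelianization.of (⟨QuotientGroup.mk' a.K g', hg'⟩ : gam (H ⧸ a.K) 1) = 1 :=
      congrArg Additive.toMul e1.symm
    exact (QuotientGroup.eq_one_iff _).1 h2
  have h2 : commutator (gam (H ⧸ a.K) 1) = ⊥ := by
    rw [eq_bot_iff, commutator_def, commutator_le]
    rintro x _ y _
    rw [mem_bot]
    apply Subtype.ext
    have := a.gam_comm x.2 y.2
    rw [commutatorElement_def] at this ⊢
    exact this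
  rw [h2, mem_bot] at h1
  have h3 : QuotientGroup.mk' a.K g' = 1 := congrArg Subtype.val h1
  have h4 := ((QuotientGroup.eq_one_iff g').1 h3).2
  rw [h4] at e2
  have h5 := (mul_eq_zero.1 e2.symm).resolve_right hgb
  exact ⟨P, hPm, h5⟩

/-- **growth** -/
theorem growth {T : Set H} (hfin : T.Finite) (hT : closure T = ⊤) {b : H} (hb1 : a.χ b = 1)
    (hb : a.β b ≠ 0) (hN : ∀ N : Subgroup H, N.FiniteIndex → ∃ n ∈ N, a.χ n ≠ 1) :
    (∀ n, 2 ^ n ≤ Nat.card ↥(T ^ n) ^ 4) ∨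
    ∃ (t : H) (x : ℂ), IsIntegral ℤ (a.χ t) ∧ x ≠ 0 ∧ (∀ n > 0, x ^ n ≠ 1) ∧
      (∀ p : ℤ[X], aeval (a.χ t) p = 0 → aeval x p = 0) ∧
      ∀ n, Nat.card (H746UG.DS x n) ≤ Nat.card ↥(T ^ n) ^ 4 := by
  have hsurj := QuotientGroup.mk'_surjective a.K
  have hT' : closure ((QuotientGroup.mk' a.K) '' T) = ⊤ := by
    rw [← MonoidHom.map_closure, hT, ← MonoidHom.range_eq_map]
    exact MonoidHom.range_eq_top.2 hsurj
  have hle : ∀ n, Nat.card ↥(((QuotientGroup.mk' a.K) '' T) ^ n) ≤ Nat.card ↥(T ^ n) := by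
    intro n
    have : Finite ↥(T ^ n) := H746UG.finite_pow T hfin n
    rw [← Set.image_pow]
    exact Nat.card_image_le this
  rcases main_track (hfin.image (QuotientGroup.mk' a.K)) hT' (k := 1) le_rfl with
    h | ⟨hMf, t, c, x, hx0, hx, hp, hn⟩ | ⟨_, h⟩
  · left
    intro n
    exact (h n).trans (Nat.pow_le_pow_left (hle n) _)
  · right
    obtain ⟨t, rfl⟩ := hsurj t
    refine ⟨t, x, a.integral hMf hb1 hb hN t, hx0, hx, ?_,
      fun n => (hn n).trans (Nat.pow_le_pow_left (hle n) _)⟩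
    intro p hpχ
    apply hp
    obtain ⟨γ, hγ⟩ := QuotientGroup.mk_surjective (Additive.toMul c)
    obtain ⟨g, hg⟩ := hsurj (γ : H ⧸ a.K)
    have hgγ : QuotientGroup.mk' a.K g ∈ gam (H ⧸ a.K) 1 := by rw [hg]; exact γ.2
    have hc : c = a.cl g hgγ := by
      apply Additive.toMul.injective
      have h1 : Additive.toMul c = Abelianization.of γ := hγ.symm
      rw [h1]
      show Abelianization.of γ = Abelianization.of _
      congr 1
      exact Subtype.ext hg.symm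
    rw [hc]
    obtain ⟨g', hg', e1, e2⟩ := a.chain t p g hgγ
    rw [e1]
    rw [hpχ, zero_mul] at e2
    have h4 : (⟨QuotientGroup.mk' a.K g', hg'⟩ : gam (H ⧸ a.K) 1) = 1 := by
      apply Subtype.ext
      exact (QuotientGroup.eq_one_iff g').2 ⟨a.χ_of_mem hg', e2⟩
    show Additive.ofMul (Abelianization.of _) = 0
    rw [h4, map_one]
    rfl
  · exact absurd (h a.nil) (a.not_vn hb1 hb hN)

end Aff

end Pool.Agent.Y552.CT
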