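import Mathlib
import Pool.Agent.Y552.CT.Defs

/-!
# The part of a representation on which no vector is fixed by a subgroup of finite index
-/

set_option autoImplicit false

namespace Pool.Agent.Y552.CT

open Subgroup
open scoped commutatorElement

universe u v

section aug

variable {G : Type u} [Group G] {V : Type v} [AddCommGroup V] [Module ℂ V]
  (ρ : G →* Module.End ℂ V)

/-- the span of all `n x - x` -/
def Iw (N : Subgroup G) (X : Submodule ℂ V) : Submodule ℂ V :=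
  Submodule.span ℂ {w | ∃ n ∈ N, ∃ x ∈ X, w = ρ n x - x}

/-- its iterates -/
def augk (N : Subgroup G) : ℕ → Submodule ℂ V
  | 0 => ⊤
  | k + 1 => Iw ρ N (augk N k)

lemma Iw_mono {N N' : Subgroup G} {X X' : Submodule ℂ V} (hN : N ≤ N') (hX : X ≤ X') :
    Iw ρ N X ≤ Iw ρ N' X' :=
  Submodule.span_mono (by
    rintro _ ⟨n, hn, x, hx, rfl⟩
    exact ⟨n, hN hn, x, hX hx, rfl⟩)

lemma augk_mono {N N' : Subgroup G} (h : N ≤ N') : ∀ k, augk ρ N k ≤ augk ρ N' k
  | 0 => le_rfl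
  | k + 1 => Iw_mono ρ h (augk_mono h k)

/-- stable submodules -/
def St (X : Submodule ℂ V) : Prop := ∀ g : G, ∀ x ∈ X, ρ g x ∈ X

variable {ρ}

lemma Iw_le {N : Subgroup G} {X : Submodule ℂ V} (hX : St ρ X) : Iw ρ N X ≤ X := by
  refine Submodule.span_le.2 ?_
  rintro _ ⟨n, _, x, hx, rfl⟩
  exact X.sub_mem (hX n x hx) hx

lemma St_Iw {N : Subgroup G} [N.Normal] {X : Submodule ℂ V} (hX : St ρ X) : St ρ (Iw ρ N X) := by
  intro g
  have h1 : Iw ρ N X ≤ (Iw ρ N X).comap (ρ g) := by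
    conv_lhs => unfold Iw
    refine Submodule.span_le.2 ?_
    rintro _ ⟨n, hn, x, hx, rfl⟩
    show ρ g (ρ n x - x) ∈ Iw ρ N X
    refine Submodule.subset_span ⟨g * n * g⁻¹, Normal.conj_mem inferInstance n hn g, ρ g x,
      hX g x hx, ?_⟩
    rw [map_sub, ← Module.End.mul_apply, ← Module.End.mul_apply, ← map_mul, ← map_mul]
    congr 3
    group
  exact fun x hx => h1 hx

/-- the restriction of the representation to a stable submodule -/
def rX {X : Submodule ℂ V} (hX : St ρ X) : G →* Module.End ℂ X where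
  toFun g := (ρ g).restrict (hX g)
  map_one' := by
    ext x
    simp
  map_mul' g h := by
    ext x
    simp

lemma rX_coe {X : Submodule ℂ V} (hX : St ρ X) (g : G) (x : X) : ((rX hX g x : X) : V) = ρ g x := rfl

theorem exists_min [FiniteDimensional ℂ V] (hFIX : S_FIX.{u, v}) (A : Subgroup G) [A.Normal]
    (hA : ∀ a ∈ A, ρ a = 1) (hQ : Group.IsVirtuallyNilpotent (G ⧸ A)) :
    (∃ N : Subgroup G, N.FiniteIndex ∧ ∃ k, augk ρ N k = ⊥) ∨
    ∃ X : Submodule ℂ V, X ≠ ⊥ ∧ St ρ X ∧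
      ∀ x ∈ X, (∃ N : Subgroup G, N.FiniteIndex ∧ ∀ n ∈ N, ρ n x = x) → x = 0 := by
  classical
  let P : ℕ → Prop := fun d => ∃ X : Submodule ℂ V, St ρ X ∧ Module.finrank ℂ X = d ∧
    ∃ N : Subgroup G, N.Normal ∧ N.FiniteIndex ∧ ∃ k, augk ρ N k ≤ X
  have hP : ∃ d, P d := ⟨_, ⊤, fun _ _ _ => Submodule.mem_top, rfl, ⊤, inferInstance,
    inferInstance, 0, le_top⟩
  obtain ⟨X, hX, hXd, N₀, hN₀n, hN₀f, k, hk⟩ := Nat.find_spec hP
  have hmin : ∀ d, P d → Nat.find hP ≤ d := fun d hd => Nat.find_min' hP hd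
  by_cases hX0 : X = ⊥
  · left
    exact ⟨N₀, hN₀f, k, by rw [eq_bot_iff, ← hX0]; exact hk⟩
  right
  refine ⟨X, hX0, hX, ?_⟩
  rintro x hx ⟨N₁, hN₁f, hfix⟩
  obtain ⟨NQ, hNQ, hNQf⟩ := hQ
  -- a small normal subgroup
  set N : Subgroup G := N₀ ⊓ N₁.normalCore ⊓ (NQ.comap (QuotientGroup.mk' A)).normalCore with hN
  have hcf : (NQ.comap (QuotientGroup.mk' A)).FiniteIndex :=
    ⟨by rw [index_comap_of_surjective _ (QuotientGroup.mk'_surjective A)]; exact hNQf.index_ne_zero⟩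
  have hNn : N.Normal := by
    rw [hN]; infer_instance
  have hNf : N.FiniteIndex := by
    rw [hN]; infer_instance
  have hNN₀ : N ≤ N₀ := inf_le_left.trans inf_le_left
  have hNN₁ : N ≤ N₁ := (inf_le_left.trans inf_le_right).trans (normalCore_le _)
  have hNNQ : N.map (QuotientGroup.mk' A) ≤ NQ :=
    map_le_iff_le_comap.2 (inf_le_right.trans (normalCore_le _))
  -- minimality
  have hX' : Iw ρ N X = X := by
    have h1 : P (Module.finrank ℂ (Iw ρ N X)) := by
      refine ⟨Iw ρ N X, St_Iw hX, rfl, N, hNn, hNf, k + 1, ?_⟩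
      exact Iw_mono ρ le_rfl ((augk_mono ρ hNN₀ k).trans hk)
    have h2 := hmin _ h1
    rw [← hXd] at h2
    exact Submodule.eq_of_le_of_finrank_le (Iw_le hX) h2
  -- the nilpotent group
  set Nb := N.map (QuotientGroup.mk' A) with hNb
  have hNbn : Group.IsNilpotent Nb := by
    obtain ⟨n, hn⟩ := (isNilpotent_iff_lowerCentralSeries NQ).1 hNQ
    refine (isNilpotent_iff_lowerCentralSeries Nb).2 ⟨n, ?_⟩
    rw [eq_bot_iff, ← hn]
    exact lowerCentralSeries_mono n hNNQ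
  have hA' : ∀ a ∈ A, rX hX a = 1 := by
    intro a ha
    ext x
    rw [rX_coe, hA a ha]
    rfl
  let τ : Nb →* Module.End ℂ X := (QuotientGroup.lift A (rX hX) hA').comp Nb.subtype
  have hτ : ∀ (n : G) (hn : n ∈ N) (y : X),
      τ ⟨QuotientGroup.mk' A n, mem_map_of_mem _ hn⟩ y = rX hX n y := fun n hn y => rfl
  have hspan : Submodule.span ℂ {w : X | ∃ (n : Nb) (v : X), w = τ n v - v} = ⊤ := by
    apply Submodule.map_injective_of_injective X.injective_subtype
    apply le_antisymm (Submodule.map_mono le_top)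
    rw [Submodule.map_subtype_top]
    conv_lhs => rw [← hX']
    unfold Iw
    refine Submodule.span_le.2 ?_
    rintro _ ⟨n, hn, y, hy, rfl⟩
    refine ⟨rX hX n ⟨y, hy⟩ - ⟨y, hy⟩, Submodule.subset_span ⟨⟨QuotientGroup.mk' A n,
      mem_map_of_mem _ hn⟩, ⟨y, hy⟩, rfl⟩, rfl⟩
  have h1 := hFIX Nb X τ hspan ⟨x, hx⟩ (by
    rintro ⟨_, n, hn, rfl⟩
    rw [hτ n hn]
    apply Subtype.ext
    rw [rX_coe]
    exact hfix n (hNN₁ hn))
  exact congrArg Subtype.val h1

end aug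

end Pool.Agent.Y552.CT
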