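import Mathlib
import Pool.Agent.Y552.CT.Min

/-!
# Unipotent action on `Hom(A, ℂ)`: virtually nilpotent groups; the core statement
-/

set_option autoImplicit false

namespace Pool.Agent.Y552.CT

open Subgroup
open scoped commutatorElement

universe u v

variable {G : Type u} [Group G]

/-- the elements of `A` killed by the `j`-th iterate -/
noncomputable def Bk (A : Subgroup G) [A.Normal] (N : Subgroup G) (j : ℕ) : Subgroup G where
  carrier := {g | ∃ h : g ∈ A, ∀ f ∈ augk (ac A) N j, f (Additive.ofMul ⟨g, h⟩) = 0}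
  one_mem' := ⟨A.one_mem, fun f _ => by
    have : (Additive.ofMul (⟨1, A.one_mem⟩ : A)) = 0 := rfl
    rw [this, map_zero]⟩
  mul_mem' := by
    rintro a b ⟨ha, ha'⟩ ⟨hb, hb'⟩
    refine ⟨A.mul_mem ha hb, fun f hf => ?_⟩
    have : (Additive.ofMul (⟨a * b, A.mul_mem ha hb⟩ : A)) =
      Additive.ofMul (⟨a, ha⟩ : A) + Additive.ofMul (⟨b, hb⟩ : A) := rfl
    rw [this, map_add, ha' f hf, hb' f hf, add_zero]
  inv_mem' := by
    rintro a ⟨ha, ha'⟩
    refine ⟨A.inv_mem ha, fun f hf => ?_⟩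
    have : (Additive.ofMul (⟨a⁻¹, A.inv_mem ha⟩ : A)) = - Additive.ofMul (⟨a, ha⟩ : A) := rfl
    rw [this, map_neg, ha' f hf, neg_zero]

lemma mem_Bk {A : Subgroup G} [A.Normal] {N : Subgroup G} {j : ℕ} {g : G} :
    g ∈ Bk A N j ↔ ∃ h : g ∈ A, ∀ f ∈ augk (ac A) N j, f (Additive.ofMul ⟨g, h⟩) = 0 := Iff.rfl

lemma conj_val (A : Subgroup G) [A.Normal] (g : G) (f : Additive A →+ ℂ) (a : G) (ha : a ∈ A)
    (h : g * a * g⁻¹ ∈ A) :
    f (Additive.ofMul ⟨g * a * g⁻¹, h⟩) = ac A g⁻¹ f (Additive.ofMul ⟨a, ha⟩) := by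
  rw [ac_apply]
  congr 2
  apply Subtype.ext
  simp

lemma comm_Bk (A : Subgroup G) [A.Normal] (N : Subgroup G) (j : ℕ) :
    ⁅Bk A N (j + 1), N⁆ ≤ Bk A N j := by
  rw [commutator_le]
  rintro a ⟨ha, ha'⟩ n hn
  have h1 : n * a * n⁻¹ ∈ A := Normal.conj_mem inferInstance a ha n
  have e : ⁅a, n⁆ = a * (n * a * n⁻¹)⁻¹ := by
    rw [commutatorElement_def]; group
  have hmem : ⁅a, n⁆ ∈ A := by
    rw [e]; exact A.mul_mem ha (A.inv_mem h1)
  refine ⟨hmem, fun f hf => ?_⟩
  have h2 : (Additive.ofMul (⟨⁅a, n⁆, hmem⟩ : A)) =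
      Additive.ofMul (⟨a, ha⟩ : A) - Additive.ofMul (⟨n * a * n⁻¹, h1⟩ : A) := by
    rw [sub_eq_add_neg, ← ofMul_inv, ← ofMul_mul]
    congr 1
    apply Subtype.ext
    exact e
  rw [h2, map_sub, conj_val A n f a ha h1]
  have h3 : ac A n⁻¹ f - f ∈ augk (ac A) N (j + 1) :=
    Submodule.subset_span ⟨n⁻¹, N.inv_mem hn, f, hf, rfl⟩
  have h4 := ha' _ h3
  rw [AddMonoidHom.sub_apply] at h4
  rw [sub_eq_zero] at h4 ⊢
  exact h4.symm

theorem vn_of_aug (A : Subgroup G) [A.Normal] (hQ : Group.IsVirtuallyNilpotent (G ⧸ A))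
    (hτ : {a : A | ∀ f : Additive A →+ ℂ, f (Additive.ofMul a) = 0}.Finite)
    (N : Subgroup G) (hN : N.FiniteIndex) {k : ℕ} (hk : augk (ac A) N k = ⊥) :
    Group.IsVirtuallyNilpotent G := by
  classical
  obtain ⟨NQ, hNQ, hNQf⟩ := hQ
  obtain ⟨c, hc⟩ := (isNilpotent_iff_lowerCentralSeries NQ).1 hNQ
  set T := Bk A N 0 with hT
  have hTn : T.Normal := by
    constructor
    rintro a ⟨ha, ha'⟩ g
    have h1 : g * a * g⁻¹ ∈ A := Normal.conj_mem inferInstance a ha g
    refine ⟨h1, fun f _ => ?_⟩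
    rw [conj_val A g f a ha h1]
    exact ha' _ Submodule.mem_top
  have hTf : Finite T := by
    have h1 : (T : Set G) ⊆ (fun a : A => (a : G)) ''
        {a : A | ∀ f : Additive A →+ ℂ, f (Additive.ofMul a) = 0} := by
      rintro g ⟨hg, hg'⟩
      exact ⟨⟨g, hg⟩, fun f => hg' f Submodule.mem_top, rfl⟩
    exact ((hτ.image _).subset h1).to_subtype
  have hfa : Finite (MulAut T) :=
    Finite.of_injective (fun e : MulAut T => (e : T → T)) DFunLike.coe_injective
  set C := (MulAut.conjNormal : G →* MulAut T).ker with hC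
  have hCf : C.FiniteIndex := by
    rw [hC]; infer_instance
  have hcf : (NQ.comap (QuotientGroup.mk' A)).FiniteIndex :=
    ⟨by rw [index_comap_of_surjective _ (QuotientGroup.mk'_surjective A)]; exact hNQf.index_ne_zero⟩
  set N' : Subgroup G := N ⊓ NQ.comap (QuotientGroup.mk' A) ⊓ C with hN'
  have hN'f : N'.FiniteIndex := by rw [hN']; infer_instance
  have h1 : N'.lowerCentralSeries c ≤ A := by
    have h2 : (N'.lowerCentralSeries c).map (QuotientGroup.mk' A) ≤ ⊥ := by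
      rw [Subgroup.map_lowerCentralSeries, ← hc]
      exact lowerCentralSeries_mono c (map_le_iff_le_comap.2 (inf_le_left.trans inf_le_right))
    intro g hg
    have h3 := h2 (mem_map_of_mem _ hg)
    rw [mem_bot] at h3
    exact (QuotientGroup.eq_one_iff g).1 h3
  have h2 : ∀ i ≤ k, N'.lowerCentralSeries (c + i) ≤ Bk A N (k - i) := by
    intro i
    induction i with
    | zero =>
      intro _ g hg
      refine ⟨h1 hg, fun f hf => ?_⟩
      rw [Nat.sub_zero, hk, Submodule.mem_bot] at hf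
      rw [hf]; rfl
    | succ i ih =>
      intro hi
      have h3 := ih (by omega)
      have e : k - i = (k - (i + 1)) + 1 := by omega
      rw [e] at h3
      rw [← add_assoc, Subgroup.lowerCentralSeries_succ]
      exact (commutator_mono h3 (inf_le_left.trans inf_le_left)).trans (comm_Bk A N _)
  have h3 : N'.lowerCentralSeries (c + k) ≤ T := by
    have := h2 k le_rfl
    rwa [Nat.sub_self] at this
  have h4 : N'.lowerCentralSeries (c + k + 1) = ⊥ := by
    rw [eq_bot_iff, Subgroup.lowerCentralSeries_succ, commutator_le]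
    intro a ha n hn
    have h5 : n ∈ C := hn.2
    rw [hC, MonoidHom.mem_ker] at h5
    have h6 : (MulAut.conjNormal n : MulAut T) ⟨a, h3 ha⟩ = ⟨a, h3 ha⟩ := by
      rw [h5]; rfl
    have h7 := congrArg Subtype.val h6
    rw [MulAut.conjNormal_apply] at h7
    rw [mem_bot, commutatorElement_def]
    have h8 : n * a * n⁻¹ = a := h7
    calc a * n * a⁻¹ * n⁻¹ = a * (n * a * n⁻¹)⁻¹ := by group
      _ = 1 := by rw [h8, mul_inv_cancel]
  exact ⟨N', (isNilpotent_iff_lowerCentralSeries N').2 ⟨_, h4⟩, hN'f⟩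

/-- elements of `A` act trivially -/
lemma ac_of_mem (A : Subgroup G) [A.Normal] (hab : ∀ a ∈ A, ∀ b ∈ A, a * b = b * a) :
    ∀ a ∈ A, ac A a = 1 := by
  intro a ha
  ext f ⟨b, hb⟩
  show ac A a f (Additive.ofMul ⟨b, hb⟩) = _
  rw [ac_apply]
  have : (MulAut.conjNormal a⁻¹ : MulAut A) ⟨b, hb⟩ = ⟨b, hb⟩ := by
    apply Subtype.ext
    rw [MulAut.conjNormal_apply]
    show a⁻¹ * b * a⁻¹⁻¹ = b
    rw [inv_inv, mul_assoc, hab b hb a ha, inv_mul_cancel_left]
  rw [this]
  rfl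

/-- **core**: either virtually nilpotent, or a subgroup of small index with an eigenvector in
`Hom(A, ℂ)` which is not fixed by any subgroup of finite index -/
theorem core (hEIG : S_EIG.{u, u}) (hFIX : S_FIX.{u, u}) (hDIM : S_DIM.{u})
    (A : Subgroup G) [A.Normal] (hab : ∀ a ∈ A, ∀ b ∈ A, a * b = b * a) (hfg : A.FG)
    (h2 : derivedSeries G 2 ≤ A) (hQ : Group.IsVirtuallyNilpotent (G ⧸ A)) :
    Group.IsVirtuallyNilpotent G ∨ ∃ (H : Subgroup G) (f : Additive A →+ ℂ), H.index ≠ 0 ∧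
      H.index ≤ Module.finrank ℤ (Additive (Abelianization A)) ∧ f ≠ 0 ∧
      (∀ h ∈ H, ∃ c : ℂ, ac A h f = c • f) ∧
      ∀ N : Subgroup G, N.FiniteIndex → ∃ n ∈ N, ac A n f ≠ f := by
  obtain ⟨hfd, hr, hτ, _⟩ := hDIM G A hab hfg
  rcases exists_min (ρ := ac A) hFIX A (ac_of_mem A hab) hQ with ⟨N, hN, k, hk⟩ | ⟨X, hX0, hX, hmin⟩
  · exact Or.inl (vn_of_aug A hQ hτ N hN hk)
  right
  have hnt : Nontrivial X := Submodule.nontrivial_iff_ne_bot.2 hX0
  obtain ⟨H, hH0, hHi, v, hv0, hv⟩ := hEIG G X (rX hX) (by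
    intro a ha b hb
    have h3 : ⁅a, b⁆ ∈ A := by
      apply h2
      rw [derivedSeries_succ, derivedSeries_one]
      exact commutator_mem_commutator ha hb
    have h4 : a * b = ⁅a, b⁆ * (b * a) := by
      rw [commutatorElement_def]; group
    have h5 : rX hX ⁅a, b⁆ = 1 := by
      ext x
      rw [rX_coe, ac_of_mem A hab _ h3]
      rfl
    rw [← map_mul, ← map_mul, h4, map_mul, h5, one_mul])
  refine ⟨H, v, hH0, (hHi.trans (Submodule.finrank_le X)).trans hr, ?_, ?_, ?_⟩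
  · intro h
    exact hv0 (Subtype.ext h)
  · intro h hh
    obtain ⟨c, hc⟩ := hv h hh
    refine ⟨c, ?_⟩
    have := congrArg Subtype.val hc
    exact this
  · intro N hN
    by_contra hcon
    push Not at hcon
    exact hv0 (Subtype.ext (hmin v v.2 ⟨N, hN, hcon⟩))

end Pool.Agent.Y552.CT
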