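import Mathlib
import Pool.Agent.TH53.UG6
import Pool.Agent.Y552.CT.Vn

/-!
# The quotient of the stabilizer of an eigenvector
-/

set_option autoImplicit false

namespace Pool.Agent.Y552.CT

open Subgroup
open scoped commutatorElement
open Pool.Agent.H785R3.GrowthA (gam)

universe u v

variable {G : Type u} [Group G] (A : Subgroup G) [A.Normal] (f : Additive A →+ ℂ)

/-- the stabilizer of the line of `f` -/
noncomputable def Sf : Subgroup G where
  carrier := {g | (∃ c : ℂ, ac A g f = c • f) ∧ ∃ c : ℂ, ac A g⁻¹ f = c • f}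
  one_mem' := ⟨⟨1, by rw [map_one, one_smul]; rfl⟩, ⟨1, by rw [inv_one, map_one, one_smul]; rfl⟩⟩
  mul_mem' := by
    rintro a b ⟨⟨c, hc⟩, c', hc'⟩ ⟨⟨d, hd⟩, d', hd'⟩
    refine ⟨⟨d * c, ?_⟩, ⟨c' * d', ?_⟩⟩
    · rw [map_mul, Module.End.mul_apply, hd, map_smul, hc, smul_smul]
    · rw [mul_inv_rev, map_mul, Module.End.mul_apply, hc', map_smul, hd', smul_smul]
  inv_mem' := by
    rintro a ⟨h1, h2⟩
    exact ⟨h2, by rw [inv_inv]; exact h1⟩

variable {A f}

lemma Sf_ge {H : Subgroup G} (h : ∀ g ∈ H, ∃ c : ℂ, ac A g f = c • f) : H ≤ Sf A f :=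
  fun g hg => ⟨h g hg, h _ (H.inv_mem hg)⟩

lemma A_le_Sf (hab : ∀ a ∈ A, ∀ b ∈ A, a * b = b * a) : A ≤ Sf A f :=
  Sf_ge (fun a ha => ⟨1, by rw [ac_of_mem A hab a ha, one_smul]; rfl⟩)

/-- commutators fix `f` -/
lemma comm_fix (hf : f ≠ 0) {g h : G} (hg : g ∈ Sf A f) (hh : h ∈ Sf A f) :
    ac A ⁅g, h⁆ f = f := by
  obtain ⟨c, hc⟩ := hg.1
  obtain ⟨d, hd⟩ := hh.1
  have hinv : ∀ (a : G) (b : ℂ), ac A a f = b • f → b ≠ 0 := by
    intro a b hb h0
    rw [h0, zero_smul] at hb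
    apply hf
    have h1 : ac A a⁻¹ (ac A a f) = f := by
      rw [← Module.End.mul_apply, ← map_mul, inv_mul_cancel, map_one]; rfl
    rw [← h1, hb, map_zero]
  have h1 : ac A (g * h) f = (c * d) • f := by
    rw [map_mul, Module.End.mul_apply, hd, map_smul, hc, smul_smul, mul_comm]
  have h2 : ac A (h * g) f = (c * d) • f := by
    rw [map_mul, Module.End.mul_apply, hc, map_smul, hd, smul_smul]
  have h3 : ac A ⁅g, h⁆ (ac A (h * g) f) = ac A (g * h) f := by
    rw [← Module.End.mul_apply, ← map_mul, commutatorElement_def]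
    congr 2
    group
  rw [h1, h2, map_smul] at h3
  exact smul_right_injective _ (mul_ne_zero (hinv g c hc) (hinv h d hd)) h3

variable (A f)

/-- the kernel of `f`, as a subgroup of the stabilizer -/
noncomputable def Kf : Subgroup (Sf A f) where
  carrier := {g | ∃ h : (g : G) ∈ A, f (Additive.ofMul ⟨g, h⟩) = 0}
  one_mem' := ⟨A.one_mem, by
    have : (Additive.ofMul (⟨1, A.one_mem⟩ : A)) = 0 := rfl
    exact (congrArg f this).trans (map_zero f)⟩
  mul_mem' := by
    rintro a b ⟨ha, ha'⟩ ⟨hb, hb'⟩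
    refine ⟨A.mul_mem ha hb, ?_⟩
    have : (Additive.ofMul (⟨(a : G) * b, A.mul_mem ha hb⟩ : A)) =
      Additive.ofMul (⟨a, ha⟩ : A) + Additive.ofMul (⟨b, hb⟩ : A) := rfl
    exact (congrArg f this).trans (by rw [map_add, ha', hb', add_zero])
  inv_mem' := by
    rintro a ⟨ha, ha'⟩
    refine ⟨A.inv_mem ha, ?_⟩
    have : (Additive.ofMul (⟨(a : G)⁻¹, A.inv_mem ha⟩ : A)) = - Additive.ofMul (⟨a, ha⟩ : A) := rfl
    exact (congrArg f this).trans (by rw [map_neg, ha', neg_zero])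

variable {A f}

lemma conj_val' {g : G} {a : G} (ha : a ∈ A) {c : ℂ} (hc : ac A g⁻¹ f = c • f)
    (h : g * a * g⁻¹ ∈ A) : f (Additive.ofMul ⟨g * a * g⁻¹, h⟩) = c * f (Additive.ofMul ⟨a, ha⟩) := by
  rw [conj_val A g f a ha h, hc]
  rfl

instance : (Kf A f).Normal := by
  constructor
  rintro ⟨a, haS⟩ ⟨ha, ha'⟩ ⟨g, hg⟩
  obtain ⟨c, hc⟩ := hg.2
  have h1 : g * a * g⁻¹ ∈ A := Normal.conj_mem inferInstance a ha g
  refine ⟨h1, ?_⟩
  have h2 := conj_val' (f := f) ha hc h1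
  exact h2.trans (by
    have : f (Additive.ofMul ⟨a, ha⟩) = 0 := ha'
    rw [this, mul_zero])

variable (A f)

/-- the quotient -/
abbrev Ef : Type u := Sf A f ⧸ Kf A f

variable {A f}

/-- the value of `f` on a commutator -/
lemma val_comm {a g : G} (ha : a ∈ A) {c : ℂ} (hc : ac A g⁻¹ f = c • f) :
    ∃ h : ⁅a, g⁆ ∈ A, f (Additive.ofMul ⟨⁅a, g⁆, h⟩) = (1 - c) * f (Additive.ofMul ⟨a, ha⟩) := by
  have h1 : g * a * g⁻¹ ∈ A := Normal.conj_mem inferInstance a ha g
  have e : ⁅a, g⁆ = a * (g * a * g⁻¹)⁻¹ := by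
    rw [commutatorElement_def]; group
  have hmem : ⁅a, g⁆ ∈ A := by
    rw [e]; exact A.mul_mem ha (A.inv_mem h1)
  refine ⟨hmem, ?_⟩
  have h2 : (Additive.ofMul (⟨⁅a, g⁆, hmem⟩ : A)) =
      Additive.ofMul (⟨a, ha⟩ : A) - Additive.ofMul (⟨g * a * g⁻¹, h1⟩ : A) := by
    rw [sub_eq_add_neg, ← ofMul_inv, ← ofMul_mul]
    congr 1
    apply Subtype.ext
    exact e
  rw [h2, map_sub, conj_val' ha hc h1]
  ring

theorem nil_Ef (h2 : derivedSeries G 2 ≤ A) (hf : f ≠ 0) :
    Group.IsNilpotent (gam (Ef A f) 1) := by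
  set H := Sf A f with hH
  set K := Kf A f with hK
  set γH : Subgroup H := ⁅(⊤ : Subgroup H), ⊤⁆ with hγH
  have hγ : gam (Ef A f) 1 = γH.map (QuotientGroup.mk' K) := by
    rw [hγH, map_commutator, ← MonoidHom.range_eq_map,
      MonoidHom.range_eq_top.2 (QuotientGroup.mk'_surjective K)]
    rfl
  have hfix : ∀ g ∈ γH, ac A (g : G) f = f := by
    let F : Subgroup H :=
      { carrier := {g | ac A (g : G) f = f}
        one_mem' := by
          show ac A ((1 : H) : G) f = f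
          rw [OneMemClass.coe_one, map_one]; rfl
        mul_mem' := by
          intro a b ha hb
          show ac A ((a * b : H) : G) f = f
          rw [coe_mul, map_mul, Module.End.mul_apply]
          rw [show ac A (b : G) f = f from hb]
          exact ha
        inv_mem' := by
          intro a ha
          show ac A ((a⁻¹ : H) : G) f = f
          have h1 : ac A (a : G)⁻¹ (ac A (a : G) f) = f := by
            rw [← Module.End.mul_apply, ← map_mul, inv_mul_cancel, map_one]; rfl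
          rw [show ac A (a : G) f = f from ha] at h1
          exact h1 }
    have hF : γH ≤ F := by
      rw [hγH, commutator_le]
      intro g _ h _
      exact comm_fix hf g.2 h.2
    exact fun g hg => hF hg
  have hγγ : ∀ g ∈ ⁅γH, γH⁆, (g : G) ∈ A := by
    have h3 : (⁅γH, γH⁆).map H.subtype ≤ A := by
      rw [map_commutator]
      have h4 : γH.map H.subtype ≤ derivedSeries G 1 := by
        rw [hγH, map_commutator, derivedSeries_one]
        exact commutator_mono le_top le_top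
      refine le_trans (commutator_mono h4 h4) ?_
      rw [← derivedSeries_succ]
      exact h2
    exact fun g hg => h3 (mem_map_of_mem _ hg)
  rw [isNilpotent_iff_lowerCentralSeries]
  refine ⟨2, ?_⟩
  rw [eq_bot_iff]
  show ⁅⁅gam (Ef A f) 1, gam (Ef A f) 1⁆, gam (Ef A f) 1⁆ ≤ ⊥
  have hmain : ⁅⁅γH, γH⁆, γH⁆ ≤ K := by
    rw [commutator_le]
    intro a ha g hg
    have haA := hγγ a ha
    have h5 : ac A (g : G)⁻¹ f = (1 : ℂ) • f := by
      have h10 : ac A ((g⁻¹ : H) : G) f = f := hfix g⁻¹ (γH.inv_mem hg)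
      rw [one_smul, ← coe_inv]
      exact h10
    obtain ⟨h6, h7⟩ := val_comm haA h5
    have h8 : f (Additive.ofMul (⟨⁅(a : G), (g : G)⁆, h6⟩ : A)) = 0 := by
      rw [h7, sub_self, zero_mul]
    exact ⟨h6, h8⟩
  rw [hγ, ← map_commutator, ← map_commutator]
  have h9 : (⁅⁅γH, γH⁆, γH⁆).map (QuotientGroup.mk' K) ≤ K.map (QuotientGroup.mk' K) :=
    map_mono hmain
  rw [QuotientGroup.map_mk'_self] at h9
  exact h9

theorem not_vn_Ef (hH0 : (Sf A f).index ≠ 0) (hf : f ≠ 0)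
    (hfix : ∀ N : Subgroup G, N.FiniteIndex → ∃ n ∈ N, ac A n f ≠ f) :
    ¬ Group.IsVirtuallyNilpotent (Ef A f) := by
  rintro ⟨NE, hNE, hNEf⟩
  obtain ⟨c0, hc0⟩ := (isNilpotent_iff_lowerCentralSeries NE).1 hNE
  set H := Sf A f with hH
  set K := Kf A f with hK
  set N' : Subgroup H := NE.comap (QuotientGroup.mk' K) with hN'
  have hN'i : N'.index ≠ 0 := by
    rw [hN', index_comap_of_surjective _ (QuotientGroup.mk'_surjective K)]
    exact hNEf.index_ne_zero
  set NG : Subgroup G := N'.map H.subtype with hNG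
  have hNGf : NG.FiniteIndex := ⟨by
    rw [hNG, index_map_subtype]
    exact mul_ne_zero hN'i hH0⟩
  obtain ⟨_, ⟨n, hn, rfl⟩, hnf⟩ := hfix NG hNGf
  obtain ⟨c, hc⟩ := n.2.2
  have hc1 : 1 - c ≠ 0 := by
    intro h0
    apply hnf
    have h1 : c = 1 := (sub_eq_zero.1 h0).symm
    rw [h1, one_smul] at hc
    have h2 : ac A (n : G) (ac A (n : G)⁻¹ f) = f := by
      rw [← Module.End.mul_apply, ← map_mul, mul_inv_cancel, map_one]; rfl
    rw [hc] at h2
    exact h2
  -- a starting element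
  obtain ⟨a, ha⟩ : ∃ a : A, f (Additive.ofMul a) ≠ 0 := by
    by_contra hcon
    push Not at hcon
    exact hf (by ext a; exact hcon a)
  obtain ⟨j, hj0, hj⟩ : ∃ j : ℕ, 0 < j ∧ (a : G) ^ j ∈ NG := by
    obtain ⟨j, hj0, _, hj⟩ := exists_pow_mem_of_index_ne_zero hNGf.index_ne_zero (a : G)
    exact ⟨j, hj0, hj⟩
  have key : ∀ i, ∃ b : H, b ∈ N' ∧ QuotientGroup.mk' K b ∈ NE.lowerCentralSeries i ∧
      ∃ hb : (b : G) ∈ A, f (Additive.ofMul ⟨b, hb⟩) ≠ 0 := by
    intro i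
    induction i with
    | zero =>
      obtain ⟨b, hb, hbe⟩ := hj
      have hbA : (b : G) ∈ A := by
        have : (b : G) = (a : G) ^ j := hbe
        rw [this]; exact A.pow_mem a.2 j
      refine ⟨b, hb, hb, hbA, ?_⟩
      have e : (Additive.ofMul (⟨b, hbA⟩ : A)) = j • Additive.ofMul a := by
        rw [← ofMul_pow]
        congr 1
        apply Subtype.ext
        exact hbe
      rw [e, map_nsmul]
      exact smul_ne_zero hj0.ne' ha
    | succ i ih =>
      obtain ⟨b, hb, hbi, hbA, hbf⟩ := ih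
      obtain ⟨h6, h7⟩ := val_comm hbA hc
      refine ⟨⁅b, n⁆, ?_, ?_, h6, ?_⟩
      · rw [commutatorElement_def]
        exact N'.mul_mem (N'.mul_mem (N'.mul_mem hb hn) (N'.inv_mem hb)) (N'.inv_mem hn)
      · rw [map_commutatorElement]
        exact commutator_mem_commutator hbi hn
      · have e : f (Additive.ofMul (⟨((⁅b, n⁆ : H) : G), h6⟩ : A)) =
          (1 - c) * f (Additive.ofMul ⟨b, hbA⟩) := h7
        rw [e]
        exact mul_ne_zero hc1 hbf
  obtain ⟨b, _, hb1, hbA, hbf⟩ := key c0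
  rw [hc0, mem_bot] at hb1
  obtain ⟨h1, h2⟩ := (QuotientGroup.eq_one_iff b).1 hb1
  exact hbf h2

end Pool.Agent.Y552.CT
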