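import Mathlib
import Pool.Agent.Y552.CT.Defs

/-!
# Statements for general solvable groups
-/

set_option autoImplicit false

namespace Pool.Agent.Y552.CT

universe u v

/-- the index bound -/
def Jb (m : ℕ) : ℕ := m ^ (Nat.log 2 m + 3)

/-- EIG2 -/
def S_EIG2 : Prop :=
  ∀ (G : Type u) [Group G] (V : Type v) [AddCommGroup V] [Module ℂ V] [FiniteDimensional ℂ V]
    [Nontrivial V] (ρ : G →* Module.End ℂ V),
    (∃ n : ℕ, ∀ a ∈ derivedSeries G n, ρ a = 1) →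
    ∃ H : Subgroup G, H.index ≠ 0 ∧ H.index ≤ Jb (Module.finrank ℂ V) ∧ ∃ v : V, v ≠ 0 ∧
      ∀ g ∈ H, ∃ c : ℂ, ρ g v = c • v

/-- AFF -/
def S_AFF : Prop :=
  ∀ (G : Type u) [Group G] (A : Subgroup G) [A.Normal] (f : Additive A →+ ℂ) (χ : G → ℂ)
    (N : Subgroup G) [N.Normal] (c : ℕ) (n₀ : G), f ≠ 0 → (∀ g : G, ac A g⁻¹ f = χ g • f) →
    A ≤ N → N.lowerCentralSeries c ≤ A → n₀ ∈ N → χ n₀ ≠ 1 →
    ∃ β : G → ℂ, (∀ g h : G, β (g * h) = β g + χ g * β h) ∧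
      ∀ (a : G) (ha : a ∈ A), β a = f (Additive.ofMul ⟨a, ha⟩)

/-- a complete flag of stable subspaces -/
structure Flag {G : Type u} [Group G] {V : Type v} [AddCommGroup V] [Module ℂ V]
    (ρ : G →* Module.End ℂ V) where
  /-- the subspaces -/
  F : ℕ → Submodule ℂ V
  /-- the length -/
  l : ℕ
  mono : Monotone F
  zero : F 0 = ⊥
  top : F l = ⊤
  stable : ∀ (i : ℕ) (g : G), ∀ v ∈ F i, ρ g v ∈ F i
  irred : ∀ (i : ℕ) (W : Submodule ℂ V), F i ≤ W → W ≤ F (i + 1) →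
    (∀ g : G, ∀ v ∈ W, ρ g v ∈ W) → W = F i ∨ W = F (i + 1)

/-- the subgroup moving the flag down by `k` steps -/
def Flag.U {G : Type u} [Group G] {V : Type v} [AddCommGroup V] [Module ℂ V]
    {ρ : G →* Module.End ℂ V} (F : Flag ρ) (k : ℕ) : Subgroup G where
  carrier := {g | ∀ i : ℕ, ∀ v ∈ F.F (i + k), ρ g v - v ∈ F.F i}
  one_mem' := by
    intro i v _
    simp
  mul_mem' := by
    intro a b ha hb i v hv
    have h1 : ρ (a * b) v - v = ρ a (ρ b v - v) + (ρ a v - v) := by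
      rw [map_mul, Module.End.mul_apply, map_sub]; abel
    rw [h1]
    exact (F.F i).add_mem (F.stable i a _ (hb i v hv)) (ha i v hv)
  inv_mem' := by
    intro a ha i v hv
    have h1 : ρ a⁻¹ v - v = -(ρ a⁻¹ (ρ a v - v)) := by
      rw [map_sub, ← Module.End.mul_apply, ← map_mul, inv_mul_cancel, map_one,
        Module.End.one_apply]
      abel
    rw [h1]
    exact (F.F i).neg_mem (F.stable i _ _ (ha i v hv))

/-- FLAG -/
def S_FLAG : Prop :=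
  ∀ (G : Type u) [Group G] (V : Type v) [AddCommGroup V] [Module ℂ V] [FiniteDimensional ℂ V]
    (ρ : G →* Module.End ℂ V), Nonempty (Flag ρ)

/-- CR (assuming EIG2): the quotient by `U 1` is virtually abelian -/
def S_CR : Prop :=
  S_EIG2.{u, v} →
  ∀ (G : Type u) [Group G] (V : Type v) [AddCommGroup V] [Module ℂ V] [FiniteDimensional ℂ V]
    (ρ : G →* Module.End ℂ V) (F : Flag ρ), (∃ n : ℕ, ∀ a ∈ derivedSeries G n, ρ a = 1) →
    ∃ H : Subgroup G, H.FiniteIndex ∧ ∀ a ∈ H, ∀ b ∈ H, a * b * a⁻¹ * b⁻¹ ∈ F.U 1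

/-- LFS: the functionals on `U k` (`k ≥ 1`) -/
def S_LFS : Prop :=
  ∀ (G : Type u) [Group G] (V : Type v) [AddCommGroup V] [Module ℂ V] [FiniteDimensional ℂ V]
    (ρ : G →* Module.End ℂ V) (F : Flag ρ) (k : ℕ), 1 ≤ k →
    ∃ _ : (F.U k).Normal, ∃ M : Submodule ℂ (Additive (F.U k) →+ ℂ),
      FiniteDimensional ℂ M ∧ Module.finrank ℂ M ≤ Module.finrank ℂ V ^ 2 ∧
      (∀ g : G, ∀ f ∈ M, ac (F.U k) g f ∈ M) ∧
      (∀ (a : G) (ha : a ∈ F.U k), (∀ f ∈ M, f (Additive.ofMul ⟨a, ha⟩) = 0) →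
        a ∈ F.U (k + 1)) ∧
      ∀ (g : G) (c : ℂ) (f : Additive (F.U k) →+ ℂ), f ∈ M → f ≠ 0 → ac (F.U k) g f = c • f →
        ∃ α β : ℂ, Module.End.HasEigenvalue (ρ g) α ∧ Module.End.HasEigenvalue (ρ g⁻¹) β ∧
          c = α * β

end Pool.Agent.Y552.CT
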