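import Mathlib
import Pool.Agent.Y552.CT.Min
import Pool.Agent.Y552.CT.Stm2
import Pool.Agent.Y552.CT.Vn

/-!
# The core statement for stable spaces of functionals
-/

set_option autoImplicit false

namespace Pool.Agent.Y552.CT

open Subgroup
open scoped commutatorElement

universe u v

variable {G : Type u} [Group G] {A : Subgroup G} [A.Normal]
  {M : Submodule ℂ (Additive A →+ ℂ)} (hM : St (ac A) M)

/-- the elements of `A` killed by the `j`-th iterate -/
noncomputable def Bm (N : Subgroup G) (j : ℕ) : Subgroup G where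
  carrier := {g | ∃ h : g ∈ A, ∀ f ∈ augk (rX hM) N j,
    (f : Additive A →+ ℂ) (Additive.ofMul ⟨g, h⟩) = 0}
  one_mem' := ⟨A.one_mem, fun f _ => by
    have : (Additive.ofMul (⟨1, A.one_mem⟩ : A)) = 0 := rfl
    rw [this, map_zero]⟩
  mul_mem' := by
    rintro a b ⟨ha, ha'⟩ ⟨hb, hb'⟩
    refine ⟨A.mul_mem ha hb, fun f hf => ?_⟩
    have : (Additive.ofMul (⟨a * b, A.mul_mem ha hb⟩ : A)) =
      Additive.ofMul (⟨a, ha⟩ : A) + Additive.ofMul (⟨b, hb⟩ : A) := rfl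
    rw [this, map_add, ha' f hf, hb' f hf, add_zero]
  inv_mem' := by
    rintro a ⟨ha, ha'⟩
    refine ⟨A.inv_mem ha, fun f hf => ?_⟩
    have : (Additive.ofMul (⟨a⁻¹, A.inv_mem ha⟩ : A)) = - Additive.ofMul (⟨a, ha⟩ : A) := rfl
    rw [this, map_neg, ha' f hf, neg_zero]

lemma comm_Bm (N : Subgroup G) (j : ℕ) : ⁅Bm hM N (j + 1), N⁆ ≤ Bm hM N j := by
  rw [commutator_le]
  rintro a ⟨ha, ha'⟩ n hn
  have h1 : n * a * n⁻¹ ∈ A := Normal.conj_mem inferInstance a ha n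
  have e : ⁅a, n⁆ = a * (n * a * n⁻¹)⁻¹ := by
    rw [commutatorElement_def]; group
  have hmem : ⁅a, n⁆ ∈ A := by
    rw [e]; exact A.mul_mem ha (A.inv_mem h1)
  refine ⟨hmem, fun f hf => ?_⟩
  have h2 : (Additive.ofMul (⟨⁅a, n⁆, hmem⟩ : A)) =
      Additive.ofMul (⟨a, ha⟩ : A) - Additive.ofMul (⟨n * a * n⁻¹, h1⟩ : A) := by
    rw [sub_eq_add_neg, ← ofMul_inv, ← ofMul_mul]
    congr 1
    apply Subtype.ext
    exact e
  rw [h2, map_sub, conj_val A n f a ha h1]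
  have h3 : rX hM n⁻¹ f - f ∈ augk (rX hM) N (j + 1) :=
    Submodule.subset_span ⟨n⁻¹, N.inv_mem hn, f, hf, rfl⟩
  have h4 := ha' _ h3
  rw [AddSubgroupClass.coe_sub, AddMonoidHom.sub_apply, rX_coe] at h4
  rw [sub_eq_zero] at h4 ⊢
  exact h4.symm

variable (A M)

/-- the elements of `A` killed by `M` -/
noncomputable def Tm : Subgroup G where
  carrier := {g | ∃ h : g ∈ A, ∀ f ∈ M, f (Additive.ofMul ⟨g, h⟩) = 0}
  one_mem' := ⟨A.one_mem, fun f _ => by
    have : (Additive.ofMul (⟨1, A.one_mem⟩ : A)) = 0 := rfl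
    rw [this, map_zero]⟩
  mul_mem' := by
    rintro a b ⟨ha, ha'⟩ ⟨hb, hb'⟩
    refine ⟨A.mul_mem ha hb, fun f hf => ?_⟩
    have : (Additive.ofMul (⟨a * b, A.mul_mem ha hb⟩ : A)) =
      Additive.ofMul (⟨a, ha⟩ : A) + Additive.ofMul (⟨b, hb⟩ : A) := rfl
    rw [this, map_add, ha' f hf, hb' f hf, add_zero]
  inv_mem' := by
    rintro a ⟨ha, ha'⟩
    refine ⟨A.inv_mem ha, fun f hf => ?_⟩
    have : (Additive.ofMul (⟨a⁻¹, A.inv_mem ha⟩ : A)) = - Additive.ofMul (⟨a, ha⟩ : A) := rfl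
    rw [this, map_neg, ha' f hf, neg_zero]

variable {A M}

include hM in
lemma Tm_normal : (Tm A M).Normal := by
  constructor
  rintro a ⟨ha, ha'⟩ g
  have h1 : g * a * g⁻¹ ∈ A := Normal.conj_mem inferInstance a ha g
  refine ⟨h1, fun f hf => ?_⟩
  rw [conj_val A g f a ha h1]
  exact ha' _ (hM _ f hf)

theorem vn_of_aug2 (hQ : Group.IsVirtuallyNilpotent (G ⧸ A)) (hT : (Tm A M).Normal)
    (N : Subgroup G) (hN : N.FiniteIndex) {k : ℕ} (hk : augk (rX hM) N k = ⊥) :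
    Group.IsVirtuallyNilpotent (G ⧸ Tm A M) := by
  classical
  obtain ⟨NQ, hNQ, hNQf⟩ := hQ
  obtain ⟨c, hc⟩ := (isNilpotent_iff_lowerCentralSeries NQ).1 hNQ
  have hcf : (NQ.comap (QuotientGroup.mk' A)).FiniteIndex :=
    ⟨by rw [index_comap_of_surjective _ (QuotientGroup.mk'_surjective A)]; exact hNQf.index_ne_zero⟩
  set N' : Subgroup G := N ⊓ NQ.comap (QuotientGroup.mk' A) with hN'
  have hN'f : N'.FiniteIndex := by rw [hN']; infer_instance
  have h1 : N'.lowerCentralSeries c ≤ A := by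
    have h2 : (N'.lowerCentralSeries c).map (QuotientGroup.mk' A) ≤ ⊥ := by
      rw [Subgroup.map_lowerCentralSeries, ← hc]
      exact lowerCentralSeries_mono c (map_le_iff_le_comap.2 inf_le_right)
    intro g hg
    have h3 := h2 (mem_map_of_mem _ hg)
    rw [mem_bot] at h3
    exact (QuotientGroup.eq_one_iff g).1 h3
  have h2 : ∀ i ≤ k, N'.lowerCentralSeries (c + i) ≤ Bm hM N (k - i) := by
    intro i
    induction i with
    | zero =>
      intro _ g hg
      refine ⟨h1 hg, fun f hf => ?_⟩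
      rw [Nat.sub_zero, hk, Submodule.mem_bot] at hf
      rw [hf]; rfl
    | succ i ih =>
      intro hi
      have h3 := ih (by omega)
      have e : k - i = (k - (i + 1)) + 1 := by omega
      rw [e] at h3
      rw [← add_assoc, Subgroup.lowerCentralSeries_succ]
      exact (commutator_mono h3 inf_le_left).trans (comm_Bm hM N _)
  have h3 : N'.lowerCentralSeries (c + k) ≤ Tm A M := by
    have h4 := h2 k le_rfl
    rw [Nat.sub_self] at h4
    refine h4.trans ?_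
    rintro g ⟨hg, hg'⟩
    exact ⟨hg, fun f hf => hg' ⟨f, hf⟩ Submodule.mem_top⟩
  refine ⟨N'.map (QuotientGroup.mk' (Tm A M)), (isNilpotent_iff_lowerCentralSeries _).2
    ⟨c + k, ?_⟩, ?_⟩
  · rw [← Subgroup.map_lowerCentralSeries, eq_bot_iff]
    have h5 : (N'.lowerCentralSeries (c + k)).map (QuotientGroup.mk' (Tm A M)) ≤
        (Tm A M).map (QuotientGroup.mk' (Tm A M)) := map_mono h3
    rw [QuotientGroup.map_mk'_self] at h5
    exact h5
  · constructor
    have h6 := index_map_dvd N' (QuotientGroup.mk'_surjective (Tm A M))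
    exact ne_zero_of_dvd_ne_zero hN'f.index_ne_zero h6

/-- elements of `A` act trivially on `Hom(A, ℂ)` -/
lemma ac_of_mem' (A : Subgroup G) [A.Normal] : ∀ a ∈ A, ac A a = 1 := by
  intro a ha
  ext f ⟨b, hb⟩
  show ac A a f (Additive.ofMul ⟨b, hb⟩) = f (Additive.ofMul ⟨b, hb⟩)
  rw [ac_apply]
  have h1 : (MulAut.conjNormal a⁻¹ : MulAut A) ⟨b, hb⟩ =
      (⟨a, ha⟩ : A)⁻¹ * ⟨b, hb⟩ * (⟨a, ha⟩ : A) := by
    apply Subtype.ext
    rw [MulAut.conjNormal_apply]
    show a⁻¹ * b * a⁻¹⁻¹ = a⁻¹ * b * a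
    rw [inv_inv]
  rw [h1, ofMul_mul, ofMul_mul, ofMul_inv, map_add, map_add, map_neg]
  ring

/-- a virtually nilpotent quotient by a finite normal subgroup -/
theorem vn_of_finite (T : Subgroup G) [hTn : T.Normal] (hTf : Finite T)
    (hQ : Group.IsVirtuallyNilpotent (G ⧸ T)) : Group.IsVirtuallyNilpotent G := by
  classical
  obtain ⟨NQ, hNQ, hNQf⟩ := hQ
  obtain ⟨c, hc⟩ := (isNilpotent_iff_lowerCentralSeries NQ).1 hNQ
  have hfa : Finite (MulAut T) :=
    Finite.of_injective (fun e : MulAut T => (e : T → T)) DFunLike.coe_injective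
  set C := (MulAut.conjNormal : G →* MulAut T).ker with hC
  have hCf : C.FiniteIndex := by
    rw [hC]; infer_instance
  have hcf : (NQ.comap (QuotientGroup.mk' T)).FiniteIndex :=
    ⟨by rw [index_comap_of_surjective _ (QuotientGroup.mk'_surjective T)]; exact hNQf.index_ne_zero⟩
  set N' : Subgroup G := NQ.comap (QuotientGroup.mk' T) ⊓ C with hN'
  have hN'f : N'.FiniteIndex := by rw [hN']; infer_instance
  have h3 : N'.lowerCentralSeries c ≤ T := by
    have h2 : (N'.lowerCentralSeries c).map (QuotientGroup.mk' T) ≤ ⊥ := by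
      rw [Subgroup.map_lowerCentralSeries, ← hc]
      exact lowerCentralSeries_mono c (map_le_iff_le_comap.2 inf_le_left)
    intro g hg
    have h3 := h2 (mem_map_of_mem _ hg)
    rw [mem_bot] at h3
    exact (QuotientGroup.eq_one_iff g).1 h3
  have h4 : N'.lowerCentralSeries (c + 1) = ⊥ := by
    rw [eq_bot_iff, Subgroup.lowerCentralSeries_succ, commutator_le]
    intro a ha n hn
    have h5 : n ∈ C := hn.2
    rw [hC, MonoidHom.mem_ker] at h5
    have h6 : (MulAut.conjNormal n : MulAut T) ⟨a, h3 ha⟩ = ⟨a, h3 ha⟩ := by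
      rw [h5]; rfl
    have h7 := congrArg Subtype.val h6
    rw [MulAut.conjNormal_apply] at h7
    rw [mem_bot, commutatorElement_def]
    have h8 : n * a * n⁻¹ = a := h7
    calc a * n * a⁻¹ * n⁻¹ = a * (n * a * n⁻¹)⁻¹ := by group
      _ = 1 := by rw [h8, mul_inv_cancel]
  exact ⟨N', (isNilpotent_iff_lowerCentralSeries N').2 ⟨_, h4⟩, hN'f⟩

include hM in
/-- **core statement** -/
theorem core3 {D : ℕ} (hFIX : S_FIX.{u, u}) (hE : ∀ (X : Submodule ℂ M) (hX : St (rX hM) X),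
      X ≠ ⊥ → ∃ H : Subgroup G, H.index ≠ 0 ∧ H.index ≤ D ∧ ∃ v : X, v ≠ 0 ∧
        ∀ g ∈ H, ∃ c : ℂ, rX hX g v = c • v)
    (hfd : FiniteDimensional ℂ M) (hQ : Group.IsVirtuallyNilpotent (G ⧸ A))
    (hT : (Tm A M).Normal) :
    Group.IsVirtuallyNilpotent (G ⧸ Tm A M) ∨
    ∃ (H : Subgroup G) (f : Additive A →+ ℂ), H.index ≠ 0 ∧ H.index ≤ D ∧
      f ∈ M ∧ f ≠ 0 ∧ (∀ h ∈ H, ∃ c : ℂ, ac A h f = c • f) ∧
      ∀ N : Subgroup G, N.FiniteIndex → ∃ n ∈ N, ac A n f ≠ f := by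
  have hA : ∀ a ∈ A, rX hM a = 1 := by
    intro a ha
    ext x
    rw [rX_coe, ac_of_mem' A a ha]
    rfl
  rcases exists_min (ρ := rX hM) hFIX A hA hQ with ⟨N, hN, k, hk⟩ | ⟨X, hX0, hX, hmin⟩
  · exact Or.inl (vn_of_aug2 hM hQ hT N hN hk)
  right
  obtain ⟨H, hH0, hHi, v, hv0, hv⟩ := hE X hX hX0
  refine ⟨H, (v : M), hH0, hHi, (v : M).2, ?_, ?_, ?_⟩
  · intro h
    exact hv0 (Subtype.ext (Subtype.ext h))
  · intro h hh
    obtain ⟨c, hc⟩ := hv h hh
    refine ⟨c, ?_⟩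
    have h1 := congrArg (fun y : X => ((y : M) : Additive A →+ ℂ)) hc
    exact h1
  · intro N hN
    by_contra hcon
    push Not at hcon
    exact hv0 (Subtype.ext (hmin v v.2 ⟨N, hN, fun n hn => Subtype.ext (hcon n hn)⟩))

/-- solvable actions -/
lemma hE_solv (hEIG : S_EIG2.{u, u}) (hsol : ∃ n, derivedSeries G n ≤ A)
    (hfd : FiniteDimensional ℂ M) {D : ℕ} (hD : Jb (Module.finrank ℂ M) ≤ D)
    (X : Submodule ℂ M) (hX : St (rX hM) X) (hX0 : X ≠ ⊥) :
    ∃ H : Subgroup G, H.index ≠ 0 ∧ H.index ≤ D ∧ ∃ v : X, v ≠ 0 ∧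
        ∀ g ∈ H, ∃ c : ℂ, rX hX g v = c • v := by
  have hA : ∀ a ∈ A, rX hM a = 1 := by
    intro a ha
    ext x
    rw [rX_coe, ac_of_mem' A a ha]
    rfl
  have hnt : Nontrivial X := Submodule.nontrivial_iff_ne_bot.2 hX0
  obtain ⟨n, hn⟩ := hsol
  obtain ⟨H, hH0, hHi, v, hv0, hv⟩ := hEIG G X (rX hX) ⟨n, by
    intro a ha
    ext x
    rw [rX_coe, hA a (hn ha)]
    rfl⟩
  have hJ : Jb (Module.finrank ℂ X) ≤ Jb (Module.finrank ℂ M) := by
    have h1 : Module.finrank ℂ X ≤ Module.finrank ℂ M := Submodule.finrank_le X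
    have hfdX : Module.Finite ℂ X := inferInstance
    have h2 : 0 < Module.finrank ℂ X :=
      (Module.finrank_pos_iff (R := ℂ) (M := X)).2 hnt
    unfold Jb
    calc Module.finrank ℂ X ^ (Nat.log 2 (Module.finrank ℂ X) + 3)
        ≤ Module.finrank ℂ M ^ (Nat.log 2 (Module.finrank ℂ X) + 3) := Nat.pow_le_pow_left h1 _
      _ ≤ Module.finrank ℂ M ^ (Nat.log 2 (Module.finrank ℂ M) + 3) :=
          Nat.pow_le_pow_right (h2.trans_le h1) (by
            have := Nat.log_mono_right (b := 2) h1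
            omega)
  exact ⟨H, hH0, hHi.trans (hJ.trans hD), v, hv0, hv⟩

/-- metabelian actions -/
lemma hE_met (hEIG : S_EIG.{u, u}) (hmet : derivedSeries G 2 ≤ A)
    (hfd : FiniteDimensional ℂ M) {D : ℕ} (hD : Module.finrank ℂ M ≤ D)
    (X : Submodule ℂ M) (hX : St (rX hM) X) (hX0 : X ≠ ⊥) :
    ∃ H : Subgroup G, H.index ≠ 0 ∧ H.index ≤ D ∧ ∃ v : X, v ≠ 0 ∧
        ∀ g ∈ H, ∃ c : ℂ, rX hX g v = c • v := by
  have hA : ∀ a ∈ A, rX hX a = 1 := by
    intro a ha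
    ext x
    rw [rX_coe, rX_coe, ac_of_mem' A a ha]
    rfl
  have hnt : Nontrivial X := Submodule.nontrivial_iff_ne_bot.2 hX0
  obtain ⟨H, hH0, hHi, v, hv0, hv⟩ := hEIG G X (rX hX) (by
    intro a ha b hb
    have h1 : ⁅a, b⁆ ∈ derivedSeries G 2 := by
      rw [derivedSeries_succ, derivedSeries_one]
      exact commutator_mem_commutator ha hb
    have h2 := hA _ (hmet h1)
    rw [← map_mul, ← map_mul]
    have e : a * b = ⁅a, b⁆ * (b * a) := by
      rw [commutatorElement_def]; group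
    rw [e, map_mul, h2, one_mul])
  exact ⟨H, hH0, hHi.trans ((Submodule.finrank_le X).trans hD), v, hv0, hv⟩

end Pool.Agent.Y552.CT
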