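import Mathlib
import Pool.Agent.TH53.UG6
import Pool.Agent.Y552.CT.Vn2
import Pool.Agent.Y552.CT.Gr
import Pool.Agent.Y552.CT.Quo

/-!
# Growth from an eigenvector of a subgroup of small index
-/

set_option autoImplicit false

namespace Pool.Agent.Y552.CT

open Subgroup Polynomial
open scoped commutatorElement Pointwise
open Pool.Agent.W963.GE (TT TT_finite TT_gen rho_TT vn_of_sub)
open Pool.Agent.TH53.UG (rho_of_dig rho_of_two)

universe u v

variable {G : Type u} [Group G]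

section restrict

variable (A : Subgroup G) [A.Normal] (H : Subgroup G)

/-- restriction of a functional to a subgroup -/
noncomputable def rf (f : Additive A →+ ℂ) : Additive (A.subgroupOf H) →+ ℂ where
  toFun a := f (Additive.ofMul ⟨((Additive.toMul a : A.subgroupOf H) : H), (Additive.toMul a).2⟩)
  map_zero' := by
    have : (Additive.ofMul (⟨1, A.one_mem⟩ : A)) = 0 := rfl
    exact (congrArg f this).trans (map_zero f)
  map_add' a b := by
    rw [← map_add]
    rfl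

omit [A.Normal] in
lemma rf_apply (f : Additive A →+ ℂ) (a : H) (ha : a ∈ A.subgroupOf H) :
    rf A H f (Additive.ofMul ⟨a, ha⟩) = f (Additive.ofMul ⟨(a : G), ha⟩) := rfl

lemma ac_rf (f : Additive A →+ ℂ) (g : H) :
    ac (A.subgroupOf H) g (rf A H f) = rf A H (ac A (g : G) f) := by
  ext ⟨⟨a, haH⟩, ha⟩
  show f (Additive.ofMul ⟨_, _⟩) = ac A (g : G) f (Additive.ofMul ⟨a, ha⟩)
  rw [ac_apply]
  congr 2

omit [A.Normal] in
lemma rf_smul (c : ℂ) (f : Additive A →+ ℂ) : rf A H (c • f) = c • rf A H f := rfl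

variable {A H}

omit [A.Normal] in
lemma rf_inj (h : A ≤ H) {f f' : Additive A →+ ℂ} (hf : rf A H f = rf A H f') : f = f' := by
  ext ⟨a, ha⟩
  have h1 := DFunLike.congr_fun hf (Additive.ofMul ⟨⟨a, h ha⟩, ha⟩)
  exact h1

end restrict

/-- **growth from an eigenvector** -/
theorem growthG (hAFF : S_AFF.{u}) (S : Set G) (hfin : S.Finite) (hgen : closure S = ⊤)
    (A : Subgroup G) [A.Normal] (hQ : Group.IsVirtuallyNilpotent (G ⧸ A)) (H : Subgroup G)
    (f : Additive A →+ ℂ) {D : ℕ} (hH0 : H.index ≠ 0) (hHD : H.index ≤ D) (hf0 : f ≠ 0)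
    (hev : ∀ h ∈ H, ∃ c : ℂ, ac A h f = c • f)
    (hnt : ∀ N : Subgroup G, N.FiniteIndex → ∃ n ∈ N, ac A n f ≠ f) :
    Real.log 2 / (4 * (2 * D - 1)) ≤ H746UG.rho S ∨
    ∃ (t : G) (χ x : ℂ), ac A t f = χ • f ∧ IsIntegral ℤ χ ∧ x ≠ 0 ∧ (∀ n > 0, x ^ n ≠ 1) ∧
      (∀ p : ℤ[X], aeval χ p = 0 → aeval x p = 0) ∧
      H746UG.eta x / (4 * (2 * D - 1)) ≤ H746UG.rho S := by
  classical
  -- the stabilizer
  set K := Sf A f with hK
  have hHK : H ≤ K := Sf_ge hev
  have hAK : A ≤ K := Sf_ge (fun a ha => ⟨1, by rw [ac_of_mem' A a ha, one_smul]; rfl⟩)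
  have hK0 : K.index ≠ 0 := by
    exact fun h => hH0 (by
      have h1 := Subgroup.index_dvd_of_le hHK
      rw [h] at h1
      exact Nat.eq_zero_of_zero_dvd h1)
  have hKD : K.index ≤ D := (Nat.le_of_dvd (Nat.pos_of_ne_zero hH0)
    (Subgroup.index_dvd_of_le hHK)).trans hHD
  have hKf : K.FiniteIndex := ⟨hK0⟩
  have hD : 1 ≤ D := by omega
  -- the characters
  have hex : ∀ g : K, ∃ c : ℂ, ac A ((g : G)⁻¹) f = c • f := fun g => g.2.2
  choose χ hχ using hex
  set A' := A.subgroupOf K with hA'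
  set f' := rf A K f with hf'
  have hf'0 : f' ≠ 0 := by
    intro h
    apply hf0
    apply rf_inj hAK
    rw [← hf', h]
    rfl
  have hχ' : ∀ g : K, ac A' g⁻¹ f' = χ g • f' := by
    intro g
    rw [hf', ac_rf, ← rf_smul, ← hχ g]
    rfl
  have hcancel : ∀ c d : ℂ, c • f = d • f → c = d := fun c d h => by
    have h1 : (c - d) • f = 0 := by rw [sub_smul, h, sub_self]
    exact sub_eq_zero.1 ((smul_eq_zero.1 h1).resolve_right hf0)
  have hone : χ 1 = 1 := by
    apply hcancel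
    rw [← hχ 1, one_smul]
    show ac A ((1 : G)⁻¹) f = f
    rw [inv_one, map_one]
    rfl
  have hmul : ∀ g h : K, χ (g * h) = χ g * χ h := by
    intro g h
    apply hcancel
    rw [← hχ (g * h)]
    have e : (((g * h : K) : G))⁻¹ = (h : G)⁻¹ * (g : G)⁻¹ := by
      rw [Subgroup.coe_mul, mul_inv_rev]
    rw [e, map_mul, Module.End.mul_apply, hχ g, map_smul, hχ h, smul_smul]
  -- the nilpotent-by-finite quotient
  obtain ⟨NQ, hNQ, hNQf⟩ := hQ
  obtain ⟨c, hc⟩ := (isNilpotent_iff_lowerCentralSeries NQ).1 hNQ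
  set N : Subgroup G := NQ.normalCore.comap (QuotientGroup.mk' A) with hN
  have hNn : N.Normal := by rw [hN]; infer_instance
  have hNf : N.FiniteIndex := ⟨by
    rw [hN, index_comap_of_surjective _ (QuotientGroup.mk'_surjective A)]
    exact Subgroup.FiniteIndex.index_ne_zero⟩
  have hAN : A ≤ N := by
    intro a ha
    rw [hN, mem_comap]
    have : QuotientGroup.mk' A a = 1 := (QuotientGroup.eq_one_iff a).2 ha
    rw [this]
    exact one_mem _
  have hNc : N.lowerCentralSeries c ≤ A := by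
    have h2 : (N.lowerCentralSeries c).map (QuotientGroup.mk' A) ≤ ⊥ := by
      rw [Subgroup.map_lowerCentralSeries, ← hc]
      exact lowerCentralSeries_mono c
        ((map_le_iff_le_comap.2 le_rfl).trans NQ.normalCore_le)
    intro g hg
    have h3 := h2 (mem_map_of_mem _ hg)
    rw [mem_bot] at h3
    exact (QuotientGroup.eq_one_iff g).1 h3
  obtain ⟨n₁, hn₁, hn₁f⟩ := hnt (N ⊓ K) inferInstance
  have hn₀ : (n₁⁻¹ : G) ∈ N ⊓ K := inv_mem hn₁
  set n₀ : K := ⟨n₁⁻¹, hn₀.2⟩ with hn₀'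
  have hχ0 : χ n₀ ≠ 1 := by
    intro h
    have h1 := hχ n₀
    rw [h, one_smul] at h1
    apply hn₁f
    have e : ((n₀ : G))⁻¹ = n₁ := by
      rw [hn₀', inv_inv]
    rw [e] at h1
    exact h1
  set N' := N.subgroupOf K with hN'
  have hNc' : N'.lowerCentralSeries c ≤ A' := by
    intro g hg
    have h1 : (N'.lowerCentralSeries c).map K.subtype ≤ N.lowerCentralSeries c := by
      rw [Subgroup.map_lowerCentralSeries]
      apply lowerCentralSeries_mono c
      rw [hN', Subgroup.subgroupOf_map_subtype]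
      exact inf_le_left
    exact hNc (h1 (mem_map_of_mem _ hg))
  have hAN' : A' ≤ N' := by
    intro a ha
    exact hAN ha
  obtain ⟨β, hβ, hβA⟩ := hAFF K A' f' χ N' c n₀ hf'0 hχ' hAN' hNc' hn₀.1 hχ0
  -- the affine action
  let a : Aff K := ⟨χ, β, hone, hmul, hβ⟩
  obtain ⟨b, hb⟩ : ∃ b : Additive A', f' b ≠ 0 := by
    by_contra hcon
    push Not at hcon
    exact hf'0 (by ext x; exact hcon x)
  have hbχ : a.χ ((Additive.toMul b : A') : K) = 1 := by
    apply hcancel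
    show χ _ • f = _
    rw [← hχ, one_smul]
    have h1 : (((Additive.toMul b : A') : K) : G)⁻¹ ∈ A := A.inv_mem (Additive.toMul b : A').2
    rw [ac_of_mem' A _ h1]
    rfl
  have hbβ : a.β ((Additive.toMul b : A') : K) ≠ 0 := by
    show β _ ≠ 0
    rw [hβA _ (Additive.toMul b : A').2]
    exact hb
  have hNN : ∀ N : Subgroup K, N.FiniteIndex → ∃ n ∈ N, a.χ n ≠ 1 := by
    intro N hN
    have h1 : (N.map K.subtype).FiniteIndex := by
      constructor
      rw [Subgroup.index_map_subtype]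
      exact mul_ne_zero hN.index_ne_zero hK0
    obtain ⟨n, hn, hnf⟩ := hnt _ h1
    obtain ⟨m, hm, rfl⟩ := hn
    refine ⟨m⁻¹, N.inv_mem hm, ?_⟩
    intro h
    apply hnf
    have h2 := hχ m⁻¹
    have h3 : χ m⁻¹ = 1 := h
    rw [h3, one_smul] at h2
    have e : (((m⁻¹ : K) : G))⁻¹ = (m : G) := by
      rw [Subgroup.coe_inv, inv_inv]
    rw [e] at h2
    exact h2
  rcases S.eq_empty_or_nonempty with rfl | hne
  · exfalso
    rw [Subgroup.closure_empty] at hgen
    obtain ⟨n, _, hn⟩ := hnt ⊤ inferInstance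
    have h1 : n ∈ (⊤ : Subgroup G) := mem_top n
    rw [← hgen, mem_bot] at h1
    rw [h1, map_one] at hn
    exact hn rfl
  have hpos : (0 : ℝ) < 2 * D - 1 := by
    have : (1 : ℝ) ≤ D := by exact_mod_cast hD
    linarith
  have fin : ∀ {c : ℝ}, c / ((4 : ℕ) : ℝ) ≤ H746UG.rho (TT S K D) →
      c / (4 * (2 * D - 1)) ≤ H746UG.rho S := by
    intro c h1
    have h2 := rho_TT S hfin hne K hD
    have he : ((2 * D - 1 : ℕ) : ℝ) = 2 * D - 1 := by
      rw [Nat.cast_sub (by omega)]; push_cast; ring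
    rw [he] at h2
    have h3 := h1.trans h2
    push_cast at h3
    rw [← div_div, div_le_iff₀ hpos, mul_comm (H746UG.rho S)]
    exact h3
  rcases a.growth (TT_finite S hfin K D) (TT_gen S hgen K hK0 hKD) hbχ hbβ hNN with
    h | ⟨t, x, hint, hx0, hx, hp, h⟩
  · exact Or.inl (fin (rho_of_two _ (by norm_num) h))
  · right
    refine ⟨(t : G)⁻¹, χ t, x, hχ t, hint, hx0, hx, hp, fin (rho_of_dig _ (by norm_num) hx0 h)⟩

/-- **one step** -/
theorem stepG (hFIX : S_FIX.{u, u}) (hAFF : S_AFF.{u}) (S : Set G)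
    (hfin : S.Finite) (hgen : closure S = ⊤) (A : Subgroup G) [A.Normal]
    {M : Submodule ℂ (Additive A →+ ℂ)} (hM : St (ac A) M) (hfd : FiniteDimensional ℂ M)
    (hQ : Group.IsVirtuallyNilpotent (G ⧸ A)) (hT : (Tm A M).Normal) {D : ℕ}
    (hE : ∀ (X : Submodule ℂ M) (hX : St (rX hM) X), X ≠ ⊥ →
      ∃ H : Subgroup G, H.index ≠ 0 ∧ H.index ≤ D ∧ ∃ v : X, v ≠ 0 ∧
        ∀ g ∈ H, ∃ c : ℂ, rX hX g v = c • v) :
    Group.IsVirtuallyNilpotent (G ⧸ Tm A M) ∨
    Real.log 2 / (4 * (2 * D - 1)) ≤ H746UG.rho S ∨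
    ∃ (f : Additive A →+ ℂ) (t : G) (χ x : ℂ), f ∈ M ∧ f ≠ 0 ∧ ac A t f = χ • f ∧
      IsIntegral ℤ χ ∧ x ≠ 0 ∧ (∀ n > 0, x ^ n ≠ 1) ∧
      (∀ p : ℤ[X], aeval χ p = 0 → aeval x p = 0) ∧
      H746UG.eta x / (4 * (2 * D - 1)) ≤ H746UG.rho S := by
  rcases core3 hM hFIX hE hfd hQ hT with h | ⟨H, f, hH0, hHi, hfM, hf0, hev, hnt⟩
  · exact Or.inl h
  · right
    rcases growthG hAFF S hfin hgen A hQ H f hH0 hHi hf0 hev hnt with
      h | ⟨t, χ, x, h1, h2, h3, h4, h5, h6⟩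
    · exact Or.inl h
    · exact Or.inr ⟨f, t, χ, x, hfM, hf0, h1, h2, h3, h4, h5, h6⟩

end Pool.Agent.Y552.CT
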