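import Mathlib
import Pool.Agent.Y552.CT.Defs

/-!
# Statements: orders of solvable linear groups, polynomial index
-/

set_option autoImplicit false

namespace Pool.Agent.Y552.CT

universe u v

/-- DIX: orders of solvable permutation groups -/
def S_DIX : Prop :=
  ∀ (T : Type u) [Group T] [Finite T] [Group.IsSolvable T] (X : Type v) [Finite X] [Nonempty X]
    [MulAction T X] [FaithfulSMul T X], Nat.card T ≤ 5 ^ (Nat.card X - 1)

/-- no invariant subgroups -/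
def Irr {Γ : Type u} [Group Γ] {W : Type v} [AddCommGroup W] (ρ : Γ →* AddMonoid.End W) : Prop :=
  ∀ U : AddSubgroup W, (∀ g : Γ, ∀ w ∈ U, ρ g w ∈ U) → U = ⊥ ∨ U = ⊤

/-- the elements of a subgroup commute -/
def Comm {Γ : Type u} [Group Γ] (B : Subgroup Γ) : Prop := ∀ a ∈ B, ∀ b ∈ B, a * b = b * a

/-- the ring generated by `B` in `End W` -/
def Rg {Γ : Type u} [Group Γ] {W : Type v} [AddCommGroup W] (ρ : Γ →* AddMonoid.End W)
    (B : Subgroup Γ) : Subring (AddMonoid.End W) := Subring.closure (ρ '' (B : Set Γ))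

/-- PRIM: a maximal abelian normal subgroup generates a field -/
def S_PRIM : Prop :=
  ∀ (Γ : Type u) [Group Γ] [Finite Γ] [Group.IsSolvable Γ] (W : Type v) [AddCommGroup W] [Finite W]
    [Nontrivial W] (ρ : Γ →* AddMonoid.End W), Function.Injective ρ →
    ∀ B : Subgroup Γ, B.Normal → Comm B →
    (∀ B' : Subgroup Γ, B'.Normal → Comm B' → B ≤ B' → B' = B) →
    (∀ x ∈ Rg ρ B, ∀ y ∈ Rg ρ B, x * y = 0 → x = 0 ∨ y = 0) →
    Nat.card Γ ≤ Nat.card W ^ 7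

/-- CLIF: an abelian normal subgroup does not generate a field -/
def S_CLIF : Prop :=
  ∀ (Γ : Type u) [Group Γ] [Finite Γ] (W : Type v) [AddCommGroup W] [Finite W]
    [Nontrivial W] (ρ : Γ →* AddMonoid.End W), Irr ρ →
    ∀ B : Subgroup Γ, B.Normal → Comm B →
    (¬ ∀ x ∈ Rg ρ B, ∀ y ∈ Rg ρ B, x * y = 0 → x = 0 ∨ y = 0) →
    ∃ (ι : Type v) (_ : Finite ι) (_ : MulAction Γ ι) (U : ι → AddSubgroup W),
      2 ≤ Nat.card ι ∧ MulAction.IsPretransitive Γ ι ∧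
      (∀ (g : Γ) (i : ι), ∀ w ∈ U i, ρ g w ∈ U (g • i)) ∧ (⨆ i, U i) = ⊤ ∧
      (∏ᶠ i, Nat.card (U i)) = Nat.card W ∧
      ∀ (i : ι) (V : AddSubgroup W), V ≤ U i →
        (∀ g : Γ, g • i = i → ∀ w ∈ V, ρ g w ∈ V) → V = ⊥ ∨ V = U i

/-- ORD: orders of irreducible solvable linear groups -/
def S_ORD : Prop :=
  ∀ (Γ : Type u) [Group Γ] [Finite Γ] [Group.IsSolvable Γ] (W : Type v) [AddCommGroup W] [Finite W]
    [Nontrivial W] (ρ : Γ →* AddMonoid.End W), Function.Injective ρ → Irr ρ →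
    5 * Nat.card Γ ≤ Nat.card W ^ 10

/-- EIG3: eigenvector of a subgroup of polynomial index -/
def S_EIG3 : Prop :=
  ∀ (G : Type u) [Group G] (V : Type v) [AddCommGroup V] [Module ℂ V] [FiniteDimensional ℂ V]
    [Nontrivial V] (ρ : G →* Module.End ℂ V),
    (∃ n : ℕ, ∀ a ∈ derivedSeries G n, ρ a = 1) →
    ∃ H : Subgroup G, H.index ≠ 0 ∧ H.index ≤ Module.finrank ℂ V ^ 21 ∧ ∃ v : V, v ≠ 0 ∧
      ∀ g ∈ H, ∃ c : ℂ, ρ g v = c • v

end Pool.Agent.Y552.CT
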