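import Mathlib
import Pool.Agent.Y552.CT.Stm4

/-!
# Orders of irreducible solvable linear groups, by induction
-/

set_option autoImplicit false

namespace Pool.Agent.Y552.CT

open Subgroup

universe u v

section block

variable {Γ : Type u} [Group Γ] {W : Type v} [AddCommGroup W] (ρ : Γ →* AddMonoid.End W)
  {ι : Type v} [MulAction Γ ι] {U : ι → AddSubgroup W}
  (hU : ∀ (g : Γ) (i : ι), ∀ w ∈ U i, ρ g w ∈ U (g • i))

/-- the action of the stabilizer on a block -/
noncomputable def rb (i : ι) : MulAction.stabilizer Γ i →* AddMonoid.End (U i) where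
  toFun g :=
    { toFun := fun w => ⟨ρ (g : Γ) w, by
        have h := hU (g : Γ) i w w.2
        have e : (g : Γ) • i = i := g.2
        rwa [e] at h⟩
      map_zero' := Subtype.ext (map_zero _)
      map_add' := fun a b => Subtype.ext (map_add _ _ _) }
  map_one' := by
    ext w
    show ρ ((1 : MulAction.stabilizer Γ i) : Γ) w = w
    rw [OneMemClass.coe_one, map_one]
    rfl
  map_mul' a b := by
    ext w
    show ρ ((a * b : MulAction.stabilizer Γ i) : Γ) w = ρ (a : Γ) (ρ (b : Γ) w)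
    rw [Subgroup.coe_mul, map_mul]
    rfl

lemma rb_apply (i : ι) (g : MulAction.stabilizer Γ i) (w : U i) :
    ((rb ρ hU i g w : U i) : W) = ρ (g : Γ) w := rfl

/-- the faithful action of the quotient -/
noncomputable def rk (i : ι) :
    (MulAction.stabilizer Γ i ⧸ (rb ρ hU i).ker) →* AddMonoid.End (U i) :=
  QuotientGroup.lift (rb ρ hU i).ker (rb ρ hU i) (fun _ h => h)

lemma rk_mk (i : ι) (g : Γ) (hg : g • i = i) (w : U i) :
    ((rk ρ hU i (QuotientGroup.mk (⟨g, hg⟩ : MulAction.stabilizer Γ i)) w : U i) : W) =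
      ρ g w := rfl

lemma rk_inj (i : ι) : Function.Injective (rk ρ hU i) := by
  intro x y h
  obtain ⟨a, rfl⟩ := QuotientGroup.mk_surjective x
  obtain ⟨b, rfl⟩ := QuotientGroup.mk_surjective y
  have h1 : rb ρ hU i a = rb ρ hU i b := h
  rw [QuotientGroup.eq, MonoidHom.mem_ker, map_mul, ← h1, ← map_mul, inv_mul_cancel, map_one]

lemma irr_rk (i : ι) (h : ∀ (V : AddSubgroup W), V ≤ U i →
    (∀ g : Γ, g • i = i → ∀ w ∈ V, ρ g w ∈ V) → V = ⊥ ∨ V = U i) : Irr (rk ρ hU i) := by
  intro V hV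
  have h1 := h (V.map (U i).subtype) (by
    rintro _ ⟨w, _, rfl⟩
    exact w.2) (by
    rintro g hg _ ⟨w, hw, rfl⟩
    have h2 := hV (QuotientGroup.mk (⟨g, hg⟩ : MulAction.stabilizer Γ i)) w hw
    exact ⟨_, h2, rk_mk ρ hU i g hg w⟩)
  rcases h1 with h1 | h1
  · left
    rw [eq_bot_iff]
    intro w hw
    have h2 : (w : W) ∈ V.map (U i).subtype := ⟨w, hw, rfl⟩
    rw [h1, AddSubgroup.mem_bot] at h2
    rw [AddSubgroup.mem_bot]
    exact Subtype.ext h2
  · right
    rw [eq_top_iff]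
    intro w _
    have h2 : (w : W) ∈ V.map (U i).subtype := by rw [h1]; exact w.2
    obtain ⟨w', hw', he⟩ := h2
    have h3 : w' = w := Subtype.ext he
    rwa [h3] at hw'

lemma eq_of_mk (i : ι) (a b : Γ) (ha : a • i = i) (hb : b • i = i)
    (h : (QuotientGroup.mk (⟨a, ha⟩ : MulAction.stabilizer Γ i) :
      MulAction.stabilizer Γ i ⧸ (rb ρ hU i).ker) =
      QuotientGroup.mk (⟨b, hb⟩ : MulAction.stabilizer Γ i)) (w : W) (hw : w ∈ U i) :
    ρ a w = ρ b w := by
  have h1 := rk_mk ρ hU i a ha ⟨w, hw⟩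
  have h2 := rk_mk ρ hU i b hb ⟨w, hw⟩
  rw [h] at h1
  exact h1.symm.trans h2

end block

theorem ord (hD : S_DIX.{u, v}) (hP : S_PRIM.{u, v}) (hC : S_CLIF.{u, v}) : S_ORD.{u, v} := by
  classical
  suffices H : ∀ n : ℕ, ∀ (Γ : Type u) [Group Γ] [Finite Γ] [Group.IsSolvable Γ] (W : Type v)
      [AddCommGroup W] [Finite W] [Nontrivial W] (ρ : Γ →* AddMonoid.End W), Nat.card W = n →
      Function.Injective ρ → Irr ρ → 5 * Nat.card Γ ≤ Nat.card W ^ 10 by
    intro Γ _ _ _ W _ _ _ ρ h1 h2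
    exact H _ Γ W ρ rfl h1 h2
  intro n
  induction n using Nat.strong_induction_on with
  | _ n ih =>
  intro Γ _ _ _ W _ _ _ ρ hn hinj hirr
  have hW2 : 2 ≤ Nat.card W := Finite.one_lt_card
  -- a maximal abelian normal subgroup
  obtain ⟨B, hB⟩ : ∃ B : Subgroup Γ, Maximal (fun B : Subgroup Γ => B.Normal ∧ Comm B) B := by
    have hfin : {B : Subgroup Γ | B.Normal ∧ Comm B}.Finite := Set.toFinite _
    have hne : {B : Subgroup Γ | B.Normal ∧ Comm B}.Nonempty :=
      ⟨⊥, inferInstance, by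
        intro a ha b hb
        rw [mem_bot] at ha hb
        rw [ha, hb]⟩
    exact hfin.exists_maximal hne
  have hBn := hB.1.1
  have hBc := hB.1.2
  by_cases hdom : ∀ x ∈ Rg ρ B, ∀ y ∈ Rg ρ B, x * y = 0 → x = 0 ∨ y = 0
  · have h1 := hP Γ W ρ hinj B hBn hBc (fun B' h1 h2 h3 => le_antisymm (hB.2 ⟨h1, h2⟩ h3) h3) hdom
    calc 5 * Nat.card Γ ≤ Nat.card W ^ 3 * Nat.card W ^ 7 := by
          apply Nat.mul_le_mul _ h1
          calc 5 ≤ 2 ^ 3 := by norm_num
            _ ≤ Nat.card W ^ 3 := Nat.pow_le_pow_left hW2 3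
      _ = Nat.card W ^ 10 := by rw [← pow_add]
  obtain ⟨ι, hιf, hact, U, hι2, htr, hU, hsup, hprod, hUirr⟩ := hC Γ W ρ hirr B hBn hBc hdom
  have hft := Fintype.ofFinite ι
  have hne : Nonempty ι := (Nat.card_pos_iff.1 (by omega : 0 < Nat.card ι)).1
  rw [finprod_eq_prod_of_fintype] at hprod
  -- all blocks have the same order
  have hρinj : ∀ g : Γ, Function.Injective (ρ g) := by
    intro g a b hab
    have h1 : ρ g⁻¹ (ρ g a) = ρ g⁻¹ (ρ g b) := by rw [hab]
    have h2 : ∀ x : W, ρ g⁻¹ (ρ g x) = x := by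
      intro x
      have : (ρ g⁻¹ * ρ g) x = x := by rw [← map_mul, inv_mul_cancel, map_one]; rfl
      exact this
    rwa [h2, h2] at h1
  have hle : ∀ (g : Γ) (i : ι), Nat.card (U i) ≤ Nat.card (U (g • i)) := by
    intro g i
    refine Nat.card_le_card_of_injective (fun w : U i => (⟨ρ g w, hU g i w w.2⟩ : U (g • i))) ?_
    intro a b hab
    exact Subtype.ext (hρinj g (congrArg Subtype.val hab))
  have heq : ∀ i j : ι, Nat.card (U i) = Nat.card (U j) := by
    intro i j
    obtain ⟨g, rfl⟩ := MulAction.exists_smul_eq Γ i j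
    refine le_antisymm (hle g i) ?_
    have h1 := hle g⁻¹ (g • i)
    rwa [inv_smul_smul] at h1
  obtain ⟨i₀⟩ := hne
  have hprod' : Nat.card (U i₀) ^ Nat.card ι = Nat.card W := by
    have e : Nat.card ι = Fintype.card ι := Nat.card_eq_fintype_card
    rw [← hprod, Finset.prod_congr rfl (fun i _ => heq i i₀), Finset.prod_const, Finset.card_univ,
      e]
  have hU2 : ∀ i, 2 ≤ Nat.card (U i) := by
    intro i
    rw [heq i i₀]
    by_contra hcon
    have h1 : Nat.card (U i₀) = 1 := by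
      have : 0 < Nat.card (U i₀) := Nat.card_pos
      omega
    rw [h1, one_pow] at hprod'
    omega
  have hUlt : ∀ i, Nat.card (U i) < n := by
    intro i
    rw [heq i i₀, ← hn, ← hprod']
    have h1 := hU2 i₀
    calc Nat.card (U i₀) = Nat.card (U i₀) ^ 1 := (pow_one _).symm
      _ < Nat.card (U i₀) ^ Nat.card ι := Nat.pow_lt_pow_right (by omega) (by omega)
  -- the action on a block
  have hblock : ∀ i, 5 * Nat.card (MulAction.stabilizer Γ i ⧸ (rb ρ hU i).ker) ≤
      Nat.card (U i) ^ 10 := by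
    intro i
    have hnt : Nontrivial (U i) := Finite.one_lt_card_iff_nontrivial.1 (by
      have := hU2 i
      omega)
    exact ih _ (hUlt i) (MulAction.stabilizer Γ i ⧸ (rb ρ hU i).ker) (U i)
      (rk ρ hU i) rfl (rk_inj ρ hU i) (irr_rk ρ hU i (hUirr i))
  -- the kernel of the permutation action
  set L := (MulAction.toPermHom Γ ι).ker with hL
  have hLmem : ∀ l : L, ∀ i : ι, (l : Γ) ∈ MulAction.stabilizer Γ i := by
    intro l i
    have h1 := MonoidHom.mem_ker.1 l.2
    have h2 := congrArg (fun e : Equiv.Perm ι => e i) h1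
    exact h2
  have hLcard : 5 ^ Nat.card ι * Nat.card L ≤ Nat.card W ^ 10 := by
    have h1 : Nat.card L ≤ Nat.card (∀ i : ι, MulAction.stabilizer Γ i ⧸ (rb ρ hU i).ker) := by
      refine Nat.card_le_card_of_injective (fun l i =>
        (QuotientGroup.mk (⟨(l : Γ), hLmem l i⟩ : MulAction.stabilizer Γ i) :
          MulAction.stabilizer Γ i ⧸ (rb ρ hU i).ker)) ?_
      intro a b hab
      apply Subtype.ext
      apply hinj
      have h2 : ∀ i, ∀ w ∈ U i, ρ (a : Γ) w = ρ (b : Γ) w := fun i w hw =>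
        eq_of_mk ρ hU i a b (hLmem a i) (hLmem b i) (congrFun hab i) w hw
      have h6 : (⨆ i, U i) ≤ AddMonoidHom.eqLocus (ρ (a : Γ) : W →+ W) (ρ (b : Γ) : W →+ W) :=
        iSup_le (fun i w hw => h2 i w hw)
      rw [hsup] at h6
      ext w
      exact h6 (AddSubgroup.mem_top w)
    rw [Nat.card_pi] at h1
    calc 5 ^ Nat.card ι * Nat.card L ≤
        5 ^ Nat.card ι * ∏ i, Nat.card (MulAction.stabilizer Γ i ⧸ (rb ρ hU i).ker) :=
          Nat.mul_le_mul_left _ h1
      _ = ∏ i : ι, (5 * Nat.card (MulAction.stabilizer Γ i ⧸ (rb ρ hU i).ker)) := by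
          have e : Nat.card ι = Fintype.card ι := Nat.card_eq_fintype_card
          rw [Finset.prod_mul_distrib, Finset.prod_const, Finset.card_univ, e]
      _ ≤ ∏ i : ι, Nat.card (U i) ^ 10 := Finset.prod_le_prod' (fun i _ => hblock i)
      _ = Nat.card W ^ 10 := by rw [Finset.prod_pow, hprod]
  have hTop : Nat.card (Γ ⧸ L) ≤ 5 ^ (Nat.card ι - 1) := by
    let act : MulAction (Γ ⧸ L) ι :=
      MulAction.compHom ι (QuotientGroup.kerLift (MulAction.toPermHom Γ ι))
    have hfaith : FaithfulSMul (Γ ⧸ L) ι := by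
      constructor
      intro a b hab
      apply QuotientGroup.kerLift_injective (MulAction.toPermHom Γ ι)
      ext i
      exact hab i
    have : Nonempty ι := ⟨i₀⟩
    exact hD (Γ ⧸ L) ι
  have hcard : Nat.card Γ = Nat.card (Γ ⧸ L) * Nat.card L :=
    Subgroup.card_eq_card_quotient_mul_card_subgroup L
  calc 5 * Nat.card Γ = 5 * Nat.card (Γ ⧸ L) * Nat.card L := by rw [hcard]; ring
    _ ≤ 5 * 5 ^ (Nat.card ι - 1) * Nat.card L :=
        Nat.mul_le_mul_right _ (Nat.mul_le_mul_left _ hTop)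
    _ = 5 ^ Nat.card ι * Nat.card L := by
        rw [← pow_succ']
        congr 2
        omega
    _ ≤ Nat.card W ^ 10 := hLcard

end Pool.Agent.Y552.CT
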