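import Pool.Agent.Y36.EG.Base

/-!
# The tower of groups with small growth

Copied from the hand-in `ClassDecay` of helper36 (`MP_d69e80_al`).
-/

set_option autoImplicit false

namespace Pool.Agent.Y552.CT.Tow

open Pool.Agent.Y36.EG
open Real Subgroup Filter Topology
open scoped Pointwise

section rate

variable (M : Mk)

lemma card_pos' (m : ℕ) : 0 < Nat.card ↥(M.S ^ m) := by
  have : Finite ↥(M.S ^ m) := (Mk.pow_finite m).to_subtype
  have : Nonempty ↥(M.S ^ m) := ⟨⟨1, Mk.pow_mono (Nat.zero_le m) (by rw [pow_zero]; rfl)⟩⟩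
  exact Nat.card_pos

lemma subadd : Subadditive (fun n : ℕ => Real.log (Nat.card ↥(M.S ^ n))) := by
  intro m n
  have h : Nat.card ↥(M.S ^ (m + n)) ≤ Nat.card ↥(M.S ^ m) * Nat.card ↥(M.S ^ n) := by
    rw [pow_add]
    exact Set.natCard_mul_le
  show Real.log (Nat.card ↥(M.S ^ (m + n))) ≤
    Real.log (Nat.card ↥(M.S ^ m)) + Real.log (Nat.card ↥(M.S ^ n))
  rw [← Real.log_mul (by exact_mod_cast (card_pos' M m).ne')
    (by exact_mod_cast (card_pos' M n).ne')]
  apply Real.log_le_log (by exact_mod_cast card_pos' M (m + n))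
  exact_mod_cast h

lemma tendsto_rate : Tendsto (fun n : ℕ => Real.log (Nat.card ↥(M.S ^ n)) / n) atTop
    (𝓝 (subadd M).lim) :=
  (subadd M).tendsto_lim (by
    refine ⟨0, ?_⟩
    rintro _ ⟨n, rfl⟩
    exact div_nonneg (Real.log_natCast_nonneg _) (Nat.cast_nonneg n))

lemma rate_le {l C : ℝ} (hl : 0 ≤ l) (h : M.PB l C) : (subadd M).lim ≤ 8 * l := by
  have h1 : ∀ m : ℕ, (1 : ℝ) ≤ Nat.card ↥(M.S ^ m) := by
    intro m
    exact_mod_cast card_pos' M m
  have hC : 0 < C := by
    have h2 := Mk.card_le hl h 0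
    have h3 := h1 0
    have h4 : (0 : ℝ) < C * exp (8 * l * (0 : ℕ)) := by linarith
    exact (pos_iff_pos_of_mul_pos h4).mpr (exp_pos _)
  have h2 : Tendsto (fun n : ℕ => Real.log C * (1 / (n : ℝ)) + 8 * l) atTop
      (𝓝 (Real.log C * 0 + 8 * l)) :=
    (tendsto_one_div_atTop_nhds_zero_nat.const_mul _).add_const _
  rw [mul_zero, zero_add] at h2
  refine le_of_tendsto_of_tendsto (tendsto_rate M) h2 ?_
  filter_upwards [eventually_gt_atTop 0] with n hn
  have hn' : (0 : ℝ) < n := by exact_mod_cast hn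
  have h3 := Mk.card_le hl h n
  have h4 : Real.log (Nat.card ↥(M.S ^ n)) ≤ Real.log C + 8 * l * n := by
    have := Real.log_le_log (by linarith [h1 n]) h3
    rwa [Real.log_mul hC.ne' (exp_pos _).ne', Real.log_exp] at this
  rw [div_le_iff₀ hn']
  refine h4.trans (le_of_eq ?_)
  field_simp

lemma rate_pos (h : M.Free2) : 0 < (subadd M).lim := by
  obtain ⟨j, hj, hk⟩ := Mk.card_ge h
  have hj' : (0 : ℝ) < j := by exact_mod_cast hj
  have h1 : Tendsto (fun k : ℕ => j * k) atTop atTop :=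
    tendsto_id.const_mul_atTop' hj
  have h2 := (tendsto_rate M).comp h1
  have h3 : Real.log 2 / j ≤ (subadd M).lim := by
    refine ge_of_tendsto h2 ?_
    filter_upwards [eventually_gt_atTop 0] with k hk0
    have hk' : (0 : ℝ) < k := by exact_mod_cast hk0
    have h4 : Real.log ((2 : ℝ) ^ k) ≤ Real.log (Nat.card ↥(M.S ^ (j * k))) := by
      apply Real.log_le_log (by positivity)
      exact_mod_cast hk k
    rw [Real.log_pow] at h4
    simp only [Function.comp]
    rw [div_le_div_iff₀ hj' (by push_cast; positivity)]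
    push_cast
    nlinarith
  have h4 : 0 < Real.log 2 / j := div_pos (Real.log_pos (by norm_num)) hj'
  linarith

end rate

/-- the tower -/
def tow : ℕ → Mk
  | 0 => base
  | n + 1 => (tow n).next

lemma tow_derived (n : ℕ) : derivedSeries (tow n).G (n + 3) = ⊥ := by
  induction n with
  | zero => exact base_derived
  | succ n ih => exact derived_wr_bot ih

lemma tow_free2 (n : ℕ) : (tow n).Free2 := by
  induction n with
  | zero => exact base_free2
  | succ n ih => exact Mk.free2_next ih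

/-- the starting exponent -/
noncomputable def l0 : ℝ := Real.log 2 / 5

lemma l0_pos : 0 < l0 := div_pos (Real.log_pos (by norm_num)) (by norm_num)

lemma q_lt : ∑ x : K4, exp (-l0) ^ (7 + wt x) < 1 := by
  set u := exp (-l0) with hu
  have hu0 : 0 < u := exp_pos _
  have hu5 : u ^ 5 = 1 / 2 := by
    rw [hu, ← exp_nat_mul, l0]
    have : ((5 : ℕ) : ℝ) * -(Real.log 2 / 5) = - Real.log 2 := by
      push_cast
      ring
    rw [this, exp_neg, Real.exp_log (by norm_num)]
    norm_num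
  have hsum : ∑ x : K4, u ^ (7 + wt x) = u ^ 7 + u ^ 15 + u ^ 12 + u ^ 10 := by
    have hU : (Finset.univ : Finset K4) = {(1, 1), (gg, 1), (1, gg), (gg, gg)} := by decide
    have e1 : wt (1, 1) = 0 := by decide
    have e2 : wt (gg, 1) = 8 := by decide
    have e3 : wt (1, gg) = 5 := by decide
    have e4 : wt (gg, gg) = 3 := by decide
    rw [hU, Finset.sum_insert (by decide), Finset.sum_insert (by decide),
      Finset.sum_insert (by decide), Finset.sum_singleton, e1, e2, e3, e4]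
    ring
  rw [hsum]
  have h1 : u ^ 2 < 5 / 6 := by
    by_contra hcon
    push Not at hcon
    have h2 : ((5 : ℝ) / 6) ^ 5 ≤ (u ^ 2) ^ 5 := pow_le_pow_left₀ (by norm_num) hcon 5
    have h3 : (u ^ 2) ^ 5 = 1 / 4 := by
      calc (u ^ 2) ^ 5 = (u ^ 5) ^ 2 := by ring
        _ = 1 / 4 := by rw [hu5]; norm_num
    rw [h3] at h2
    norm_num at h2
  have e1 : u ^ 7 = u ^ 5 * u ^ 2 := by ring
  have e2 : u ^ 15 = (u ^ 5) ^ 3 := by ring
  have e3 : u ^ 12 = (u ^ 5) ^ 2 * u ^ 2 := by ring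
  have e4 : u ^ 10 = (u ^ 5) ^ 2 := by ring
  rw [e1, e2, e3, e4, hu5]
  linarith

lemma tow_pb (n : ℕ) : ∃ C, (tow n).PB ((5 / 6) ^ n * l0) C := by
  induction n with
  | zero =>
    rw [pow_zero, one_mul]
    exact ⟨_, Mk.pb_zero l0 l0_pos.le q_lt⟩
  | succ n ih =>
    obtain ⟨C, hC⟩ := ih
    refine ⟨2 * (exp (35 / 6 * ((5 / 6) ^ n * l0)) * (C * C)), ?_⟩
    have h := Mk.pb_next (by have := l0_pos; positivity) hC
    rw [pow_succ', mul_assoc]
    exact h

lemma log_two_bound : 8 * ((Real.log 2) / 5) ≤ 2 * (5 / 6) ^ 3 := by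
  have := Real.log_two_lt_d9
  norm_num
  linarith

/-- growth rate of the `n`-th group of the tower -/
lemma tow_rate (n : ℕ) : (subadd (tow n)).lim ≤ 2 * (5 / 6) ^ (n + 3) := by
  obtain ⟨C, hC⟩ := tow_pb n
  have h1 := rate_le (tow n) (by have := l0_pos; positivity) hC
  refine h1.trans ?_
  have h2 := mul_le_mul_of_nonneg_left log_two_bound (by positivity : (0 : ℝ) ≤ (5 / 6) ^ n)
  rw [pow_add]
  calc 8 * ((5 / 6) ^ n * l0) = (5 / 6) ^ n * (8 * (Real.log 2 / 5)) := by rw [l0]; ring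
    _ ≤ _ := h2
    _ = _ := by ring

end Pool.Agent.Y552.CT.Tow
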