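import Mathlib
import Pool.Agent.Y36.EG.Base
import Pool.Agent.Y552.CT.Tow

/-!
# Linear representations of the tower of groups
-/

set_option autoImplicit false

namespace Pool.Agent.Y552.CT

open Pool.Agent.Y36.EG

/-- `G` is isomorphic to a group of rational matrices of degree `n` -/
def Lin (G : Type) [Group G] (n : ℕ) : Prop :=
  ∃ (V : Type) (_ : AddCommGroup V) (_ : Module ℚ V) (_ : FiniteDimensional ℚ V)
    (ρ : G →* Module.End ℚ V), Function.Injective ρ ∧ Module.finrank ℚ V = n

/-- the matrix of an affine map -/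
noncomputable def affM : Aff →* Matrix (Fin 2) (Fin 2) ℚ where
  toFun x := !![(x.m : ℚ), x.t; 0, 1]
  map_one' := by
    ext i j
    fin_cases i <;> fin_cases j <;> simp
  map_mul' x y := by
    ext i j
    fin_cases i <;> fin_cases j <;> simp [Matrix.mul_apply, Fin.sum_univ_two]

lemma lin_aff : Lin Aff 2 := by
  refine ⟨Fin 2 → ℚ, inferInstance, inferInstance, inferInstance,
    ((Matrix.toLinAlgEquiv' : Matrix (Fin 2) (Fin 2) ℚ ≃ₐ[ℚ] _) :
      Matrix (Fin 2) (Fin 2) ℚ →* Module.End ℚ (Fin 2 → ℚ)).comp affM, ?_, by simp⟩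
  intro x y h
  have h1 : affM x = affM y :=
    (Matrix.toLinAlgEquiv' : Matrix (Fin 2) (Fin 2) ℚ ≃ₐ[ℚ] _).injective h
  apply Aff.ext
  · have := congrFun (congrFun h1 0) 0
    exact Units.ext this
  · exact congrFun (congrFun h1 0) 1

section wr

variable {G : Type} [Group G] {V : Type} [AddCommGroup V] [Module ℚ V]
  (ρ : G →* Module.End ℚ V)

/-- the swap -/
noncomputable def swp : C2 →* Module.End ℚ (V × V) where
  toFun x := if x = 1 then 1 else (LinearEquiv.prodComm ℚ V V).toLinearMap
  map_one' := by simp
  map_mul' x y := by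
    rcases c2_cases x with rfl | rfl <;> rcases c2_cases y with rfl | rfl
    · simp
    · simp [gg_ne]
    · simp [gg_ne]
    · rw [gg_mul, if_pos rfl, if_neg gg_ne]
      ext v <;> simp

/-- the representation of the square -/
noncomputable def sq : G × G →* Module.End ℚ (V × V) where
  toFun x := LinearMap.prodMap (ρ x.1) (ρ x.2)
  map_one' := by ext v <;> simp
  map_mul' x y := by ext v <;> simp

lemma swp_sq (c : C2) (p : G × G) :
    (swp (V := V) c) * sq ρ p = sq ρ (sw G c p) * swp c := by
  rcases c2_cases c with rfl | rfl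
  · rw [map_one, one_mul, mul_one, sw_one]
  · rw [sw_gg]
    have e : (swp gg : Module.End ℚ (V × V)) = (LinearEquiv.prodComm ℚ V V).toLinearMap := by
      simp only [swp, MonoidHom.coe_mk, OneHom.coe_mk, if_neg gg_ne]
    rw [e]
    apply LinearMap.ext
    rintro ⟨v, w⟩
    rfl

/-- the representation of the wreath product with the group of order two -/
noncomputable def wr : Wr G →* Module.End ℚ (V × V) where
  toFun x := sq ρ x.left * swp x.right
  map_one' := by
    rw [SemidirectProduct.one_left, SemidirectProduct.one_right, map_one, map_one, one_mul]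
  map_mul' x y := by
    rw [SemidirectProduct.mul_left, SemidirectProduct.mul_right, map_mul, map_mul]
    calc sq ρ x.left * sq ρ ((sw G x.right) y.left) * (swp x.right * swp y.right) =
        sq ρ x.left * (sq ρ ((sw G x.right) y.left) * swp x.right) * swp y.right := by
          simp only [mul_assoc]
      _ = sq ρ x.left * (swp x.right * sq ρ y.left) * swp y.right := by rw [swp_sq]
      _ = _ := by simp only [mul_assoc]

lemma wr_inj [Nontrivial V] (hρ : Function.Injective ρ) : Function.Injective (wr ρ) := by
  rw [injective_iff_map_eq_one]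
  intro x hx
  have h1 : ∀ v w : V, (sq ρ x.left * swp x.right : Module.End ℚ (V × V)) (v, w) = (v, w) := by
    intro v w
    have := congrArg (fun f : Module.End ℚ (V × V) => f (v, w)) hx
    exact this
  rcases c2_cases x.right with hr | hr
  · rw [hr, map_one, mul_one] at h1
    apply SemidirectProduct.ext
    · apply Prod.ext
      · apply hρ
        rw [SemidirectProduct.one_left, Prod.fst_one, map_one]
        apply LinearMap.ext
        intro v
        exact congrArg Prod.fst (h1 v 0)
      · apply hρ
        rw [SemidirectProduct.one_left, Prod.snd_one, map_one]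
        apply LinearMap.ext
        intro v
        exact congrArg Prod.snd (h1 0 v)
    · exact hr
  · exfalso
    obtain ⟨v, hv⟩ := exists_ne (0 : V)
    have e : (swp gg : Module.End ℚ (V × V)) = (LinearEquiv.prodComm ℚ V V).toLinearMap := by
      simp only [swp, MonoidHom.coe_mk, OneHom.coe_mk, if_neg gg_ne]
    rw [hr, e] at h1
    have h2 := congrArg Prod.fst (h1 v 0)
    have h3 : ρ x.left.1 (0 : V) = v := h2
    rw [map_zero] at h3
    exact hv h3.symm

end wr

lemma lin_wr {G : Type} [Group G] {n : ℕ} (hn : 1 ≤ n) (h : Lin G n) : Lin (Wr G) (2 * n) := by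
  obtain ⟨V, _, _, _, ρ, hρ, hV⟩ := h
  have : Nontrivial V := Module.nontrivial_of_finrank_pos (R := ℚ) (by omega)
  refine ⟨V × V, inferInstance, inferInstance, inferInstance, wr ρ, wr_inj ρ hρ, ?_⟩
  rw [Module.finrank_prod, hV]
  omega

lemma lin_mono {G : Type} [Group G] {n d : ℕ} (hnd : n ≤ d) (h : Lin G n) : Lin G d := by
  obtain ⟨V, _, _, _, ρ, hρ, hV⟩ := h
  refine ⟨V × (Fin (d - n) → ℚ), inferInstance, inferInstance, inferInstance,
    { toFun := fun g => LinearMap.prodMap (ρ g) 1
      map_one' := by ext v <;> simp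
      map_mul' := fun x y => by ext v <;> simp }, ?_, ?_⟩
  · intro x y h
    apply hρ
    apply LinearMap.ext
    intro v
    have h1 := congrArg (fun f : Module.End ℚ (V × (Fin (d - n) → ℚ)) => (f (v, 0)).1) h
    exact h1
  · rw [Module.finrank_prod, hV, Module.finrank_fin_fun]
    omega

/-- groups of matrices -/
lemma lin_gl {G : Type} [Group G] {n : ℕ} (h : Lin G n) :
    ∃ φ : G →* GL (Fin n) ℚ, Function.Injective φ := by
  obtain ⟨V, _, _, _, ρ, hρ, hV⟩ := h
  let b : Module.Basis (Fin n) ℚ V := Module.finBasisOfFinrankEq ℚ V hV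
  let e : Module.End ℚ V ≃ₐ[ℚ] Matrix (Fin n) (Fin n) ℚ := LinearMap.toMatrixAlgEquiv b
  refine ⟨((e : Module.End ℚ V →* Matrix (Fin n) (Fin n) ℚ).comp ρ).toHomUnits, ?_⟩
  intro x y hxy
  apply hρ
  apply e.injective
  exact congrArg Units.val hxy

/-- the groups of the tower -/
lemma lin_tow (n : ℕ) : Lin (Tow.tow n).G (2 ^ (n + 2)) := by
  induction n with
  | zero => exact lin_wr (by norm_num) lin_aff
  | succ n ih =>
    have h := lin_wr (Nat.one_le_two_pow) ih
    rw [← pow_succ'] at h
    exact h

end Pool.Agent.Y552.CT
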