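import Mathlib
import Pool.Agent.H746UG.Rate
import Pool.Agent.Y552.CT.Emb

/-!
# Solvable rational matrix groups with small growth
-/

set_option autoImplicit false

namespace Pool.Agent.Y552.CT

open Pool.Agent.Y36.EG
open Real Subgroup Filter Topology
open scoped Pointwise

lemma pow_bound (d n : ℕ) (hd : d ≤ 2 ^ (n + 3)) (hd0 : 1 ≤ d) :
    2 * (5 / 6 : ℝ) ^ (n + 3) ≤ 2 * (d : ℝ) ^ (-(1 / 4) : ℝ) := by
  have h1 : (d : ℝ) ≤ 2 ^ (n + 3) := by exact_mod_cast hd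
  have hd' : (0 : ℝ) < d := by exact_mod_cast hd0
  have h2 : ((2 : ℝ) ^ (n + 3)) ^ (-(1 / 4) : ℝ) ≤ (d : ℝ) ^ (-(1 / 4) : ℝ) :=
    Real.rpow_le_rpow_of_nonpos hd' h1 (by norm_num)
  have h3 : (5 / 6 : ℝ) ^ (n + 3) ≤ ((2 : ℝ) ^ (n + 3)) ^ (-(1 / 4) : ℝ) := by
    have e : ((2 : ℝ) ^ (n + 3)) ^ (-(1 / 4) : ℝ) = ((2 : ℝ) ^ (-(1 / 4) : ℝ)) ^ (n + 3) := by
      rw [← Real.rpow_natCast, ← Real.rpow_mul (by norm_num), mul_comm,
        Real.rpow_mul (by norm_num), Real.rpow_natCast]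
    rw [e]
    apply pow_le_pow_left₀ (by norm_num)
    have h4 : ((2 : ℝ) ^ (-(1 / 4) : ℝ)) ^ 4 = 1 / 2 := by
      rw [← Real.rpow_natCast, ← Real.rpow_mul (by norm_num)]
      norm_num
    have h5 : 0 ≤ (2 : ℝ) ^ (-(1 / 4) : ℝ) := by positivity
    by_contra hcon
    push Not at hcon
    have h6 := pow_lt_pow_left₀ hcon h5 (show (4 : ℕ) ≠ 0 by norm_num)
    rw [h4] at h6
    norm_num at h6
  linarith

/-- **upper bound** -/
theorem upper (d : ℕ) (hd : 4 ≤ d) : ∃ S : Set (GL (Fin d) ℚ), S.Finite ∧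
    Group.IsSolvable (Subgroup.closure S) ∧ 0 < H746UG.rho S ∧
    H746UG.rho S ≤ 2 * (d : ℝ) ^ (-(1 / 4) : ℝ) := by
  obtain ⟨n, hn1, hn2⟩ : ∃ n : ℕ, 2 ^ (n + 2) ≤ d ∧ d ≤ 2 ^ (n + 3) := by
    have h1 : 2 ≤ Nat.log 2 d := Nat.le_log_of_pow_le (by norm_num) hd
    refine ⟨Nat.log 2 d - 2, ?_, ?_⟩
    · rw [Nat.sub_add_cancel h1]
      exact Nat.pow_log_le_self 2 (by omega)
    · have h2 : Nat.log 2 d - 2 + 3 = Nat.log 2 d + 1 := by omega
      rw [h2]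
      exact (Nat.lt_pow_succ_log_self (by norm_num) d).le
  obtain ⟨M, hM⟩ : ∃ M, M = Tow.tow n := ⟨_, rfl⟩
  have hl := lin_mono hn1 (lin_tow n)
  rw [← hM] at hl
  obtain ⟨φ, hφ⟩ := lin_gl hl
  have hrate : H746UG.rho (φ '' M.S) = (Tow.subadd M).lim := by
    refine tendsto_nhds_unique (H746UG.tendsto_rho _) ?_
    refine (Tow.tendsto_rate M).congr (fun m => ?_)
    rw [← Set.image_pow, Nat.card_image_of_injective hφ]
  refine ⟨φ '' M.S, Mk.S_finite.image φ, ?_, ?_, ?_⟩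
  · rw [← MonoidHom.map_closure]
    have h1 : Group.IsSolvable M.G := by
      rw [Group.isSolvable_def]
      rw [hM]
      exact ⟨_, Tow.tow_derived n⟩
    have h2 : Group.IsSolvable (closure M.S) := inferInstance
    exact Group.isSolvable_of_surjective (f := φ.subgroupMap (closure M.S))
      (φ.subgroupMap_surjective (closure M.S))
  · rw [hrate, hM]
    exact Tow.rate_pos _ (Tow.tow_free2 n)
  · rw [hrate, hM]
    exact (Tow.tow_rate n).trans (pow_bound d n hn2 (by omega))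

end Pool.Agent.Y552.CT
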