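import Mathlib

/-!
# Two algebraic statements
-/

set_option autoImplicit false

namespace Pool.Agent.Y552.CT

universe u

/-- RK: functionals on an abelian group of finite torsion-free rank -/
def S_RK : Prop :=
  ∀ (B : Type u) [AddCommGroup B] (m : ℕ), Module.rank ℤ B ≤ (m : Cardinal.{u}) →
    FiniteDimensional ℂ (B →+ ℂ) ∧ Module.finrank ℂ (B →+ ℂ) ≤ m ∧
    (∀ b : B, (∀ f : B →+ ℂ, f b = 0) → ∃ n : ℕ, 0 < n ∧ n • b = 0) ∧
    ∀ τ : B →+ B, ∃ P : Polynomial ℤ, P ≠ 0 ∧ P.natDegree ≤ m ∧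
      ∀ (c : ℂ) (f : B →+ ℂ), f ≠ 0 → (∀ b : B, f (τ b) = c * f b) →
        Polynomial.aeval c P = 0

/-- NF: products of eigenvalues of matrices over a number field -/
def S_NF : Prop :=
  ∀ (K : Type u) [Field K] [NumberField K] (σ : K →+* ℂ) (d : ℕ) (g h : Matrix (Fin d) (Fin d) K)
    (α β : ℂ), Module.End.HasEigenvalue (Matrix.toLin' (g.map σ)) α →
    Module.End.HasEigenvalue (Matrix.toLin' (h.map σ)) β →
    ∃ P : Polynomial ℤ, P ≠ 0 ∧ P.natDegree ≤ Module.finrank ℚ K * d ^ 2 ∧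
      Polynomial.aeval (α * β) P = 0

end Pool.Agent.Y552.CT
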