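import Mathlib
import Pool.Agent.Y552.CT.Quo

/-!
# The eigenvalues on the derived subgroup of the quotient
-/

set_option autoImplicit false

namespace Pool.Agent.Y552.CT

open Subgroup Polynomial
open scoped commutatorElement
open Pool.Agent.H785R3.GrowthA (gam)
open Pool.Agent.TH53.UG (act act_of)

universe u v

lemma act_pow {G : Type*} [Group G] (N : Subgroup G) [N.Normal] (t : G) (n : ℕ) (a : N) :
    ((act N t) ^ n) (Additive.ofMul (Abelianization.of a)) =
      Additive.ofMul (Abelianization.of (MulAut.conjNormal (t ^ n) a)) := by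
  induction n with
  | zero => simp
  | succ n ih =>
    rw [pow_succ', Module.End.mul_apply, ih, act_of, pow_succ', map_mul]
    rfl

variable {G : Type u} [Group G] {A : Subgroup G} [A.Normal] {f : Additive A →+ ℂ}

/-- the class of an element of `γ` in the abelianization -/
noncomputable abbrev cl (a : Sf A f) (h : QuotientGroup.mk' (Kf A f) a ∈ gam (Ef A f) 1) :
    Additive (Abelianization (gam (Ef A f) 1)) :=
  Additive.ofMul (Abelianization.of ⟨QuotientGroup.mk' (Kf A f) a, h⟩)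

lemma cl_congr {a b : Sf A f} (hab : a = b) (h : QuotientGroup.mk' (Kf A f) a ∈ gam (Ef A f) 1)
    (h' : QuotientGroup.mk' (Kf A f) b ∈ gam (Ef A f) 1) : cl a h = cl b h' := by
  subst hab; rfl

lemma mem_mul {a b : Sf A f} (h : QuotientGroup.mk' (Kf A f) a ∈ gam (Ef A f) 1)
    (h' : QuotientGroup.mk' (Kf A f) b ∈ gam (Ef A f) 1) :
    QuotientGroup.mk' (Kf A f) (a * b) ∈ gam (Ef A f) 1 := by
  rw [map_mul]; exact mul_mem h h'

lemma mem_inv {a : Sf A f} (h : QuotientGroup.mk' (Kf A f) a ∈ gam (Ef A f) 1) :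
    QuotientGroup.mk' (Kf A f) a⁻¹ ∈ gam (Ef A f) 1 := by
  rw [map_inv]; exact inv_mem h

lemma mem_zpow {a : Sf A f} (h : QuotientGroup.mk' (Kf A f) a ∈ gam (Ef A f) 1) (n : ℤ) :
    QuotientGroup.mk' (Kf A f) (a ^ n) ∈ gam (Ef A f) 1 := by
  rw [map_zpow]; exact zpow_mem h n

lemma mem_conj (t : Sf A f) {a : Sf A f} (h : QuotientGroup.mk' (Kf A f) a ∈ gam (Ef A f) 1) :
    QuotientGroup.mk' (Kf A f) (t * a * t⁻¹) ∈ gam (Ef A f) 1 := by
  rw [map_mul, map_mul, map_inv]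
  exact Normal.conj_mem inferInstance _ h _

lemma cl_mul {a b : Sf A f} (h : QuotientGroup.mk' (Kf A f) a ∈ gam (Ef A f) 1)
    (h' : QuotientGroup.mk' (Kf A f) b ∈ gam (Ef A f) 1) :
    cl (a * b) (mem_mul h h') = cl a h + cl b h' := rfl

lemma cl_inv {a : Sf A f} (h : QuotientGroup.mk' (Kf A f) a ∈ gam (Ef A f) 1) :
    cl a⁻¹ (mem_inv h) = - cl a h := rfl

lemma cl_zpow {a : Sf A f} (h : QuotientGroup.mk' (Kf A f) a ∈ gam (Ef A f) 1) (n : ℤ) :
    cl (a ^ n) (mem_zpow h n) = n • cl a h := by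
  have h1 : (⟨QuotientGroup.mk' (Kf A f) (a ^ n), mem_zpow h n⟩ : gam (Ef A f) 1) =
      (⟨QuotientGroup.mk' (Kf A f) a, h⟩ : gam (Ef A f) 1) ^ n := by
    apply Subtype.ext
    rw [SubgroupClass.coe_zpow, ← map_zpow]
  show Additive.ofMul (Abelianization.of _) = n • Additive.ofMul (Abelianization.of _)
  rw [h1, map_zpow, ofMul_zpow]

lemma act_cl (t : Sf A f) {a : Sf A f} (h : QuotientGroup.mk' (Kf A f) a ∈ gam (Ef A f) 1)
    (n : ℕ) : ((act (gam (Ef A f) 1) (QuotientGroup.mk' (Kf A f) t)) ^ n) (cl a h) =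
      cl (t ^ n * a * (t ^ n)⁻¹) (mem_conj (t ^ n) h) := by
  rw [act_pow]
  congr 2

lemma chain (t : Sf A f) {χ : ℂ} (hχ : ac A (t : G)⁻¹ f = χ • f) (p : ℤ[X]) :
    ∀ (a : Sf A f) (ha : (a : G) ∈ A) (hg : QuotientGroup.mk' (Kf A f) a ∈ gam (Ef A f) 1),
      ∃ (a' : Sf A f) (ha' : (a' : G) ∈ A) (hg' : QuotientGroup.mk' (Kf A f) a' ∈ gam (Ef A f) 1),
        aeval (act (gam (Ef A f) 1) (QuotientGroup.mk' (Kf A f) t)) p (cl a hg) = cl a' hg' ∧
        f (Additive.ofMul ⟨a', ha'⟩) = aeval χ p * f (Additive.ofMul ⟨a, ha⟩) := by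
  intro a ha hg
  induction p using Polynomial.induction_on with
  | C c =>
    refine ⟨a ^ c, ?_, mem_zpow hg c, ?_, ?_⟩
    · rw [SubgroupClass.coe_zpow]; exact A.zpow_mem ha c
    · rw [aeval_C, Module.algebraMap_end_apply, cl_zpow]
    · have e : (Additive.ofMul (⟨((a ^ c : Sf A f) : G), by
          rw [SubgroupClass.coe_zpow]; exact A.zpow_mem ha c⟩ : A)) =
          c • Additive.ofMul (⟨a, ha⟩ : A) := by
        rw [← ofMul_zpow]
        congr 1
      rw [e, map_zsmul, aeval_C]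
      simp
  | add p q hp hq =>
    obtain ⟨a₁, h₁, g₁, e₁, f₁⟩ := hp
    obtain ⟨a₂, h₂, g₂, e₂, f₂⟩ := hq
    refine ⟨a₁ * a₂, A.mul_mem h₁ h₂, mem_mul g₁ g₂, ?_, ?_⟩
    · rw [map_add, LinearMap.add_apply, e₁, e₂, cl_mul]
    · have e : (Additive.ofMul (⟨((a₁ * a₂ : Sf A f) : G), A.mul_mem h₁ h₂⟩ : A)) =
          Additive.ofMul (⟨a₁, h₁⟩ : A) + Additive.ofMul (⟨a₂, h₂⟩ : A) := rfl
      rw [e, map_add, f₁, f₂, map_add, add_mul]
  | monomial n c hp =>
    obtain ⟨a₁, h₁, g₁, e₁, f₁⟩ := hp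
    have h3 : (t : G) * a₁ * (t : G)⁻¹ ∈ A := Normal.conj_mem inferInstance _ h₁ _
    refine ⟨t * a₁ * t⁻¹, h3, mem_conj t g₁, ?_, ?_⟩
    · have e : (C c * X ^ (n + 1) : ℤ[X]) = X * (C c * X ^ n) := by ring
      rw [e, map_mul, Module.End.mul_apply, e₁, aeval_X]
      have h4 := act_cl t g₁ 1
      rw [pow_one] at h4
      rw [h4]
      exact cl_congr (by rw [pow_one]) _ _
    · have h5 := conj_val' (f := f) h₁ hχ h3
      have e : (C c * X ^ (n + 1) : ℤ[X]) = X * (C c * X ^ n) := by ring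
      have h6 : f (Additive.ofMul (⟨((t * a₁ * t⁻¹ : Sf A f) : G), h3⟩ : A)) =
          χ * f (Additive.ofMul ⟨a₁, h₁⟩) := h5
      rw [h6, f₁, e, map_mul (aeval χ) X, aeval_X]
      ring

lemma reach (hQ : Group.IsVirtuallyNilpotent (G ⧸ A)) (t : Sf A f) :
    ∃ e : ℕ, 0 < e ∧ ∃ c : ℕ, ∀ (g : Sf A f) (hg : QuotientGroup.mk' (Kf A f) g ∈ gam (Ef A f) 1),
      ∃ (a : Sf A f) (_ : (a : G) ∈ A) (ha' : QuotientGroup.mk' (Kf A f) a ∈ gam (Ef A f) 1),
        aeval (act (gam (Ef A f) 1) (QuotientGroup.mk' (Kf A f) t))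
          ((X ^ e - 1) ^ c * C (e : ℤ)) (cl g hg) = cl a ha' := by
  obtain ⟨NQ, hNQ, hNQf⟩ := hQ
  obtain ⟨c, hc⟩ := (isNilpotent_iff_lowerCentralSeries NQ).1 hNQ
  have hc' : NQ.normalCore.lowerCentralSeries c = ⊥ := by
    rw [eq_bot_iff, ← hc]
    exact lowerCentralSeries_mono c (normalCore_le _)
  have hfi : NQ.normalCore.FiniteIndex := inferInstance
  refine ⟨NQ.normalCore.index, Nat.pos_of_ne_zero hfi.index_ne_zero, c, ?_⟩
  set M := NQ.normalCore with hM
  set e := M.index with he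
  intro g hg
  have key : ∀ i, ∃ (d : Sf A f) (hd : QuotientGroup.mk' (Kf A f) d ∈ gam (Ef A f) 1),
      QuotientGroup.mk' A (d : G) ∈ M.lowerCentralSeries i ∧
      aeval (act (gam (Ef A f) 1) (QuotientGroup.mk' (Kf A f) t))
          ((X ^ e - 1) ^ i * C (e : ℤ)) (cl g hg) = cl d hd := by
    intro i
    induction i with
    | zero =>
      refine ⟨g ^ (e : ℤ), mem_zpow hg e, ?_, ?_⟩
      · rw [zpow_natCast, SubmonoidClass.coe_pow, map_pow]
        exact M.pow_index_mem _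
      · rw [pow_zero, one_mul, aeval_C, Module.algebraMap_end_apply, cl_zpow]
    | succ i ih =>
      obtain ⟨d, hd, hdi, hde⟩ := ih
      refine ⟨t ^ e * d * (t ^ e)⁻¹ * d⁻¹, mem_mul (mem_conj (t ^ e) hd) (mem_inv hd), ?_, ?_⟩
      · have h1 : QuotientGroup.mk' A (((t ^ e * d * (t ^ e)⁻¹ * d⁻¹ : Sf A f)) : G) =
            ⁅QuotientGroup.mk' A ((t ^ e : Sf A f) : G), QuotientGroup.mk' A (d : G)⁆ := by
          rw [commutatorElement_def]
          simp
        rw [h1, Subgroup.lowerCentralSeries_succ, commutator_comm]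
        refine commutator_mem_commutator ?_ hdi
        rw [SubmonoidClass.coe_pow, map_pow]
        exact M.pow_index_mem _
      · rw [pow_succ', mul_assoc, map_mul, Module.End.mul_apply, hde, map_sub, map_pow, aeval_X,
          map_one, LinearMap.sub_apply, act_cl, Module.End.one_apply, sub_eq_add_neg]
        rfl
  obtain ⟨d, hd, hdc, hde⟩ := key c
  rw [hc', mem_bot] at hdc
  exact ⟨d, (QuotientGroup.eq_one_iff _).1 hdc, hd, hde⟩

lemma aeval_eig {s : G} {χ : ℂ} (h : ac A s f = χ • f) (P : ℤ[X]) :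
    aeval (ac A s) P f = (aeval χ P) • f := by
  induction P using Polynomial.induction_on with
  | C c =>
    rw [aeval_C, aeval_C]
    show ((algebraMap ℤ (Module.End ℂ (Additive A →+ ℂ))) c) f = _
    rw [Algebra.algebraMap_eq_smul_one, Algebra.algebraMap_eq_smul_one, LinearMap.smul_apply,
      Module.End.one_apply, smul_assoc, one_smul]
  | add p q hp hq => rw [map_add, LinearMap.add_apply, hp, hq, map_add, add_smul]
  | monomial n c hp =>
    have e : (C c * X ^ (n + 1) : ℤ[X]) = X * (C c * X ^ n) := by ring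
    rw [e, map_mul, Module.End.mul_apply, hp, aeval_X, map_smul, h, smul_smul,
      map_mul (aeval χ) X, aeval_X, mul_comm]

theorem trk (hQ : Group.IsVirtuallyNilpotent (G ⧸ A)) (hf : f ≠ 0) {r : ℕ}
    (hP : ∀ t : G, ∃ P : ℤ[X], P.Monic ∧ P.natDegree = r ∧ aeval (ac A t) P f = 0)
    (t : Ef A f) (c : Additive (Abelianization (gam (Ef A f) 1))) (x : ℂ)
    (hx : ∀ n > 0, x ^ n ≠ 1)
    (hp : ∀ p : ℤ[X], aeval (act (gam (Ef A f) 1) t) p c = 0 → aeval x p = 0) :
    ∃ P : ℤ[X], P.Monic ∧ P.natDegree = r ∧ aeval x P = 0 := by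
  obtain ⟨t, rfl⟩ := QuotientGroup.mk'_surjective (Kf A f) t
  obtain ⟨χ, hχ⟩ := t.2.2
  obtain ⟨P, hPm, hPd, hPf⟩ := hP (t : G)⁻¹
  have hPχ : aeval χ P = 0 := by
    rw [aeval_eig hχ] at hPf
    exact (smul_eq_zero.1 hPf).resolve_right hf
  refine ⟨P, hPm, hPd, ?_⟩
  obtain ⟨e, he, k, hreach⟩ := reach hQ t
  have h0 : aeval (act (gam (Ef A f) 1) (QuotientGroup.mk' (Kf A f) t))
      (P * ((X ^ e - 1) ^ k * C (e : ℤ))) c = 0 := by
    obtain ⟨γ, hγ⟩ := QuotientGroup.mk_surjective (Additive.toMul c)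
    obtain ⟨g, hg⟩ := QuotientGroup.mk'_surjective (Kf A f) (γ : Ef A f)
    have hgγ : QuotientGroup.mk' (Kf A f) g ∈ gam (Ef A f) 1 := by rw [hg]; exact γ.2
    have hc : c = cl g hgγ := by
      apply Additive.toMul.injective
      have h1 : Additive.toMul c = Abelianization.of γ := hγ.symm
      rw [h1]
      show Abelianization.of γ = Abelianization.of _
      congr 1
      exact Subtype.ext hg.symm
    rw [hc, map_mul, Module.End.mul_apply]
    obtain ⟨a, ha, ha', e1⟩ := hreach g hgγ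
    rw [e1]
    obtain ⟨b, hb, hb', e2, e3⟩ := chain t hχ P a ha ha'
    rw [e2]
    rw [hPχ, zero_mul] at e3
    have h4 : (⟨QuotientGroup.mk' (Kf A f) b, hb'⟩ : gam (Ef A f) 1) = 1 := by
      apply Subtype.ext
      exact (QuotientGroup.eq_one_iff b).2 ⟨hb, e3⟩
    show Additive.ofMul (Abelianization.of _) = 0
    rw [h4, map_one]
    rfl
  have h1 := hp _ h0
  rw [map_mul, map_mul, map_pow, map_sub, map_pow, aeval_X, map_one, aeval_C] at h1
  rcases mul_eq_zero.1 h1 with h2 | h2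
  · exact h2
  · exfalso
    rcases mul_eq_zero.1 h2 with h3 | h3
    · have h6 : x ^ e - 1 = 0 := by
        by_contra h7
        exact pow_ne_zero k h7 h3
      exact hx e he (sub_eq_zero.1 h6)
    · have h5 : ((e : ℤ) : ℂ) = 0 := h3
      have h6 : (e : ℂ) = 0 := by exact_mod_cast h5
      exact he.ne' (by exact_mod_cast h6)

end Pool.Agent.Y552.CT
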