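import Mathlib
import Pool.Agent.Y552.CT.Der

/-!
# Unconditional bounds
-/

set_option autoImplicit false

namespace Pool.Agent.Y552.CT

open Polynomial
open Pool.Agent.W963.GE (MM base eta_ge log_base_ge MM_ge mm_dob)

/-- from `base` to the logarithm of the Mahler measure -/
lemma mahler_of {x : ℂ} (hx : IsIntegral ℤ x) {a ρ : ℝ} (ha : 0 < a)
    (h : Real.log (base (MM x)) / (4 * a) ≤ ρ) :
    min 1 (Real.log (MM x)) / (32 * a) ≤ ρ := by
  refine le_trans ?_ h
  have h1 := log_base_ge (MM_ge x hx)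
  have e : min 1 (Real.log (MM x)) / (32 * a) = (min 1 (Real.log (MM x)) / 8) / (4 * a) := by
    rw [div_div]
    congr 1
    ring
  rw [e]
  exact div_le_div_of_nonneg_right h1 (by positivity)

/-- **unconditional bound** -/
theorem unc : ∃ c : ℝ, 0 < c ∧ ∀ (N D q : ℕ) (ρ : ℝ), 1 ≤ N → 1 ≤ D → 1 ≤ q →
    (Real.log 2 / (4 * ((2 * D - 1) * (2 * q - 1))) ≤ ρ ∨ ∃ x : ℂ, x ≠ 0 ∧ IsIntegral ℤ x ∧
      (∀ n > 0, x ^ n ≠ 1) ∧ (minpoly ℤ x).natDegree ≤ N ∧
      min 1 (Real.log (MM x)) / (32 * ((2 * D - 1) * (2 * q - 1))) ≤ ρ) →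
    c / (D * q * Real.log (2 * N) ^ 3) ≤ ρ := by
  obtain ⟨c0, hc0, hdob⟩ := mm_dob
  have hl2 : 0 < Real.log 2 := Real.log_pos (by norm_num)
  refine ⟨min c0 (Real.log 2 ^ 3) / 128, by positivity, ?_⟩
  intro N D q ρ hN hD hq h
  set c1 := min c0 (Real.log 2 ^ 3) with hc1
  have hc1p : 0 < c1 := by positivity
  have hN' : (1 : ℝ) ≤ N := by exact_mod_cast hN
  have hD' : (1 : ℝ) ≤ D := by exact_mod_cast hD
  have hq' : (1 : ℝ) ≤ q := by exact_mod_cast hq
  set l := Real.log (2 * N) with hl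
  have hl2' : Real.log 2 ≤ l := Real.log_le_log (by norm_num) (by linarith)
  have hl0 : 0 < l := hl2.trans_le hl2'
  have hl3 : Real.log 2 ^ 3 ≤ l ^ 3 := pow_le_pow_left₀ hl2.le hl2' 3
  have hA : 0 < (2 * (D : ℝ) - 1) * (2 * q - 1) := by
    apply mul_pos <;> linarith
  have hA4 : (2 * (D : ℝ) - 1) * (2 * q - 1) ≤ 4 * (D * q) := by nlinarith
  have hone : c1 / l ^ 3 ≤ 1 := by
    rw [div_le_one (by positivity)]
    exact (min_le_right _ _).trans hl3
  have goal1 : ∀ y : ℝ, c1 / l ^ 3 ≤ y → y / (32 * ((2 * D - 1) * (2 * q - 1))) ≤ ρ →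
      c1 / 128 / (D * q * l ^ 3) ≤ ρ := by
    intro y hy hyr
    refine le_trans ?_ hyr
    have hy0 : 0 ≤ y := le_trans (by positivity) hy
    calc c1 / 128 / (D * q * l ^ 3) = (c1 / l ^ 3) / (32 * (4 * (D * q))) := by
          rw [div_div, div_div]
          congr 1
          ring
      _ ≤ y / (32 * (4 * (D * q))) := div_le_div_of_nonneg_right hy (by positivity)
      _ ≤ y / (32 * ((2 * D - 1) * (2 * q - 1))) :=
          div_le_div_of_nonneg_left hy0 (by positivity) (by linarith)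
  rcases h with h | ⟨x, hx0, hxi, hx, hdeg, h⟩
  · apply goal1 (8 * Real.log 2)
    · have := Real.log_two_gt_d9
      linarith
    · refine le_trans (le_of_eq ?_) h
      rw [show (32 : ℝ) * ((2 * D - 1) * (2 * q - 1)) = 8 * (4 * ((2 * D - 1) * (2 * q - 1))) by
        ring, mul_div_mul_left _ _ (by norm_num)]
  · apply goal1 _ _ h
    refine le_min hone ?_
    refine le_trans ?_ (hdob x hxi hx0 hx)
    have h1 : (1 : ℝ) ≤ (minpoly ℤ x).natDegree := by exact_mod_cast minpoly.natDegree_pos hxi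
    have h2 : ((minpoly ℤ x).natDegree : ℝ) ≤ N := by exact_mod_cast hdeg
    have h3 : 0 < Real.log (2 * (minpoly ℤ x).natDegree) := Real.log_pos (by linarith)
    have h4 : Real.log (2 * (minpoly ℤ x).natDegree) ≤ l :=
      Real.log_le_log (by linarith) (by linarith)
    have h5 : c1 ≤ c0 := min_le_left _ _
    gcongr

end Pool.Agent.Y552.CT
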